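import Mathlib

set_option autoImplicit false

/-!
# Sobolev norms on Harish-Chandra modules: definitions

`G = SL(2, ℝ) × SL(2, ℝ)`, `K = SO(2) × SO(2)`, and `V` is the Harish-Chandra module of the
`K`-finite functions on `P¹(ℝ) × P¹(ℝ)`.
-/

open Complex Matrix
open scoped ContDiff

namespace Pool.Agent.N535.GC

/-- `SL(2, ℝ)` -/
abbrev SL : Type := SpecialLinearGroup (Fin 2) ℝ

/-- the real reductive group `SL(2, ℝ) × SL(2, ℝ)` -/
abbrev G : Type := SL × SL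

/-- `2 × 2` matrices -/
abbrev Mat : Type := Matrix (Fin 2) (Fin 2) ℝ

/-- the `K`-finite functions on `P¹(ℝ) × P¹(ℝ)`: the Finsupp `v` is the function
`∑ v (m, n) exp (2 i (m θ + n φ))`, where `θ`, `φ` are the angles of the lines spanned by
`(cos θ, sin θ)` and `(cos φ, sin φ)` -/
abbrev V : Type := (ℤ × ℤ) →₀ ℂ

/-- the function `exp (2 i (m θ + n φ))` -/
noncomputable def e (m n : ℤ) : V := Finsupp.single (m, n) 1

/-- the action of the Lie algebra `sl(2, ℝ) × sl(2, ℝ)` on `V` by vector fields: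
`(X f) (z) = d/dt f (exp (- t X) z)` at `t = 0` -/
noncomputable def act (X Y : Mat) : V →ₗ[ℂ] V :=
  Finsupp.linearCombination ℂ fun p : ℤ × ℤ =>
    (p.1 : ℂ) • ((X 0 0 : ℂ) • (e (p.1 + 1) p.2 - e (p.1 - 1) p.2)
      - (I * ((X 0 1 : ℂ) + (X 1 0 : ℂ)) / 2) • (e (p.1 + 1) p.2 + e (p.1 - 1) p.2)
      + (I * ((X 0 1 : ℂ) - (X 1 0 : ℂ))) • e p.1 p.2)
    + (p.2 : ℂ) • ((Y 0 0 : ℂ) • (e p.1 (p.2 + 1) - e p.1 (p.2 - 1))
      - (I * ((Y 0 1 : ℂ) + (Y 1 0 : ℂ)) / 2) • (e p.1 (p.2 + 1) + e p.1 (p.2 - 1))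
      + (I * ((Y 0 1 : ℂ) - (Y 1 0 : ℂ))) • e p.1 p.2)

/-- the rotation by the angle `α` -/
noncomputable def rot (α : ℝ) : SL :=
  ⟨!![Real.cos α, -Real.sin α; Real.sin α, Real.cos α], by
    rw [Matrix.det_fin_two_of]; nlinarith [Real.sin_sq_add_cos_sq α]⟩

/-- the action of the rotation `(rot α, rot β)` of `K` on `V`: `(k f) (z) = f (k⁻¹ z)` -/
noncomputable def kact (α β : ℝ) : V →ₗ[ℂ] V :=
  Finsupp.linearCombination ℂ fun p : ℤ × ℤ =>
    exp (-(2 * (p.1 * α + p.2 * β) * I)) • e p.1 p.2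

/-- a norm on `V` -/
structure IsNorm (p : V → ℝ) : Prop where
  eq_zero : ∀ v, p v = 0 ↔ v = 0
  add_le : ∀ v w, p (v + w) ≤ p v + p w
  smul : ∀ (a : ℂ) v, p (a • v) = ‖a‖ * p v

/-- a smooth map into `G` (smooth matrix entries) -/
def SmoothMap {n : ℕ} (γ : (Fin n → ℝ) → G) : Prop :=
  ∀ i j : Fin 2, ContDiff ℝ ∞ (fun x => (γ x).1 i j) ∧ ContDiff ℝ ∞ (fun x => (γ x).2 i j)

/-- a smooth curve in `G` through `1` with the tangent vector `(X, Y)` there -/
structure Curve (γ : ℝ → G) (X Y : Mat) : Prop where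
  smooth : ∀ i j : Fin 2, ContDiff ℝ ∞ (fun t => (γ t).1 i j) ∧ ContDiff ℝ ∞ (fun t => (γ t).2 i j)
  one : γ 0 = 1
  tangent : ∀ i j : Fin 2, HasDerivAt (fun t => (γ t).1 i j) (X i j) 0 ∧
    HasDerivAt (fun t => (γ t).2 i j) (Y i j) 0

/-- The Banach space `E` with `ι` is the completion of `V` with respect to `p`, and it carries the
continuous representation `π` of `G` by bounded operators such that `V` consists of `K`-finite smooth
vectors and the induced action of `(𝔤, K)` on `V` is the given one. -/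
structure Rep (p : V → ℝ) (E : Type) [NormedAddCommGroup E] [NormedSpace ℂ E]
    [CompleteSpace E] where
  ι : V →ₗ[ℂ] E
  norm_ι : ∀ v, ‖ι v‖ = p v
  dense : DenseRange ι
  π : G →* (E →L[ℂ] E)
  cont : Continuous fun x : G × E => π x.1 x.2
  smooth : ∀ (v : V) (n : ℕ) (γ : (Fin n → ℝ) → G), SmoothMap γ →
    ContDiff ℝ ∞ fun x => π (γ x) (ι v)
  deriv : ∀ (v : V) (γ : ℝ → G) (X Y : Mat), Curve γ X Y →
    HasDerivAt (fun t => π (γ t) (ι v)) (ι (act X Y v)) 0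
  rot : ∀ (v : V) (α β : ℝ), π (rot α, rot β) (ι v) = ι (kact α β v)

/-- `p` is a `G`-continuous norm on `V` -/
def GContinuous (p : V → ℝ) : Prop :=
  IsNorm p ∧ ∃ (E : Type) (_ : NormedAddCommGroup E) (_ : NormedSpace ℂ E) (_ : CompleteSpace E),
    Nonempty (Rep p E)

/-- `D_s = (1 + Δ_K) ^ (s / 2)`, where `Δ_K` is multiplication of `e m n` by `c (m ^ 2 + n ^ 2)`;
the constant `c > 0` depends on the normalisation of the Cartan-Killing form -/
noncomputable def D (c s : ℝ) : V →ₗ[ℂ] V :=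
  Finsupp.linearCombination ℂ fun p : ℤ × ℤ =>
    (((1 + c * ((p.1 : ℝ) ^ 2 + (p.2 : ℝ) ^ 2)) ^ (s / 2) : ℝ) : ℂ) • e p.1 p.2

/-- the supremum norm on `V` -/
noncomputable def supNorm (v : V) : ℝ :=
  ⨆ x : ℝ × ℝ, ‖v.sum fun p a => a * exp ((p.1 * x.1 + p.2 * x.2 : ℝ) * I)‖

/-- the generator of `SO(2)` -/
def J : Mat := !![0, -1; 1, 0]

/-- `V` is a Harish-Chandra module of `G`: a `(𝔤, K)`-module, admissible and finitely generated -/
structure IsHCModule : Prop where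
  /-- `act` is a representation of the Lie algebra -/
  act_add : ∀ (X Y X' Y' : Mat) (v : V), act (X + X') (Y + Y') v = act X Y v + act X' Y' v
  act_smul : ∀ (r : ℝ) (X Y : Mat) (v : V), act (r • X) (r • Y) v = (r : ℂ) • act X Y v
  act_bracket : ∀ (X Y X' Y' : Mat), X.trace = 0 → Y.trace = 0 → X'.trace = 0 → Y'.trace = 0 →
    ∀ v : V, act (X * X' - X' * X) (Y * Y' - Y' * Y) v =
      act X Y (act X' Y' v) - act X' Y' (act X Y v)
  /-- `kact` is a representation of `K` -/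
  kact_congr : ∀ (α β α' β' : ℝ), rot α = rot α' → rot β = rot β' → kact α β = kact α' β'
  kact_add : ∀ (α β α' β' : ℝ) (v : V), kact (α + α') (β + β') v = kact α β (kact α' β' v)
  kact_zero : ∀ v : V, kact 0 0 v = v
  /-- compatibility of the actions -/
  kact_act : ∀ (α β : ℝ) (X Y : Mat) (v : V), X.trace = 0 → Y.trace = 0 → kact α β (act X Y v) =
    act ((rot α : Mat) * X * (rot (-α) : Mat)) ((rot β : Mat) * Y * (rot (-β) : Mat)) (kact α β v)
  kact_deriv : ∀ (r s : ℝ) (v : V) (p : ℤ × ℤ),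
    HasDerivAt (fun t : ℝ => kact (t * r) (t * s) v p) (act (r • J) (s • J) v p) 0
  /-- admissibility: every character of `K` occurs at most once -/
  admissible : ∀ k l : ℤ, ∃ w : V, ∀ v : V,
    (∀ α β : ℝ, kact α β v = exp (-((k * α + l * β) * I)) • v) → ∃ a : ℂ, v = a • w
  /-- finite generation -/
  generated : ∃ S : Finset V, ∀ W : Submodule ℂ V, (S : Set V) ⊆ W →
    (∀ X Y : Mat, X.trace = 0 → Y.trace = 0 → ∀ v ∈ W, act X Y v ∈ W) → W = ⊤
  /-- every vector is `K`-finite -/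
  kfinite : ∀ v : V, ∃ W : Submodule ℂ V, FiniteDimensional ℂ W ∧ v ∈ W ∧
    ∀ α β : ℝ, ∀ w ∈ W, kact α β w ∈ W

end Pool.Agent.N535.GC
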