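import Pool.Agent.N535.GC.Smooth

set_option autoImplicit false

open Complex Matrix
open scoped ContDiff

namespace Pool.Agent.N535.GC

lemma deriv_al {A : ℝ → Mat} {X : Mat} (h : ∀ i j, HasDerivAt (fun t => A t i j) (X i j) 0) :
    HasDerivAt (fun t => al (A t)) (al X) 0 := by
  have e : ∀ i j, HasDerivAt (fun t => ((A t i j : ℝ) : ℂ)) ((X i j : ℝ) : ℂ) 0 := fun i j =>
    (h i j).ofReal_comp
  have : (fun x => al (A x)) = fun x =>
      (((A x 0 0 : ℂ) + (A x 1 1 : ℂ)) + ((A x 1 0 : ℂ) - (A x 0 1 : ℂ)) * I) * (1 / 2) := by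
    funext x
    simp only [al]
    push_cast
    ring
  rw [this]
  refine ((((e 0 0).add (e 1 1)).add (((e 1 0).sub (e 0 1)).mul_const I)).mul_const
    (1 / 2 : ℂ)).congr_deriv ?_
  simp only [al]
  push_cast
  ring

lemma deriv_be {A : ℝ → Mat} {X : Mat} (h : ∀ i j, HasDerivAt (fun t => A t i j) (X i j) 0) :
    HasDerivAt (fun t => be (A t)) (be X) 0 := by
  have e : ∀ i j, HasDerivAt (fun t => ((A t i j : ℝ) : ℂ)) ((X i j : ℝ) : ℂ) 0 := fun i j =>
    (h i j).ofReal_comp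
  have : (fun x => be (A x)) = fun x =>
      (((A x 0 0 : ℂ) - (A x 1 1 : ℂ)) + ((A x 1 0 : ℂ) + (A x 0 1 : ℂ)) * I) * (1 / 2) := by
    funext x
    simp only [be]
    push_cast
    ring
  rw [this]
  refine ((((e 0 0).sub (e 1 1)).add (((e 1 0).add (e 0 1)).mul_const I)).mul_const
    (1 / 2 : ℂ)).congr_deriv ?_
  simp only [be]
  push_cast
  ring

lemma deriv_conj {f : ℝ → ℂ} {f' : ℂ} (h : HasDerivAt f f' 0) :
    HasDerivAt (fun t => (starRingEnd ℂ) (f t)) ((starRingEnd ℂ) f') 0 :=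
  (Complex.conjCLE.toContinuousLinearMap.hasFDerivAt.comp_hasDerivAt 0 h)

/-- derivative of the Möbius action -/
lemma deriv_mob {γ : ℝ → SL} {X : Mat} (h1 : γ 0 = 1) (ht : X.trace = 0)
    (h : ∀ i j : Fin 2, HasDerivAt (fun t => (γ t) i j) (X i j) 0) (w : Circle) :
    HasDerivAt (fun t => (mob (γ t)⁻¹ w : ℂ))
      (X 0 0 * ((w : ℂ) ^ 2 - 1) - I * ((X 0 1 : ℂ) + X 1 0) / 2 * ((w : ℂ) ^ 2 + 1)
        + I * ((X 0 1 : ℂ) - X 1 0) * w) 0 := by
  have hα := deriv_al (A := fun t => (γ t).1) h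
  have hβ := deriv_be (A := fun t => (γ t).1) h
  have hN := ((deriv_conj hα).mul_const (w : ℂ)).sub hβ
  have hD := hα.sub ((deriv_conj hβ).mul_const (w : ℂ))
  have hne : al (γ 0).1 - (starRingEnd ℂ) (be (γ 0).1) * w ≠ 0 := den_inv_ne _ _
  have hq := hN.div hD hne
  have e : (fun t => (mob (γ t)⁻¹ w : ℂ)) = fun t =>
      ((starRingEnd ℂ) (al (γ t).1) * w - be (γ t).1) /
        (al (γ t).1 - (starRingEnd ℂ) (be (γ t).1) * w) := by
    funext t
    exact coe_mob_inv _ _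
  rw [e]
  refine hq.congr_deriv ?_
  have a0 : al (γ 0).1 = 1 := by rw [h1]; exact al_one
  have b0 : be (γ 0).1 = 0 := by rw [h1]; exact be_one
  generalize (w : ℂ) = z
  have v1 : (((fun t => al (γ t).1) - fun y => (starRingEnd ℂ) (be (γ y).1) * z) : ℝ → ℂ) 0 = 1 := by
    change al (γ 0).1 - (starRingEnd ℂ) (be (γ 0).1) * z = 1
    rw [a0, b0, map_zero, zero_mul, sub_zero]
  have v2 : (((fun y => (starRingEnd ℂ) (al (γ y).1) * z) - fun t => be (γ t).1) : ℝ → ℂ) 0 = z := by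
    change (starRingEnd ℂ) (al (γ 0).1) * z - be (γ 0).1 = z
    rw [a0, b0, map_one, one_mul, sub_zero]
  rw [v1, v2, mul_one, one_pow, div_one]
  have htr : X 1 1 = - X 0 0 := by
    rw [Matrix.trace_fin_two] at ht; linarith
  have hcw : ∀ z : ℂ, (starRingEnd ℂ) (al X) * z - be X - z * (al X - (starRingEnd ℂ) (be X) * z) =
      (X 0 0 : ℂ) * (z ^ 2 - 1) - I * ((X 0 1 : ℂ) + X 1 0) / 2 * (z ^ 2 + 1)
        + I * ((X 0 1 : ℂ) - X 1 0) * z := by
    intro z
    simp only [al, be, htr, map_div₀, map_add, map_mul, conj_ofReal, conj_I, map_ofNat]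
    push_cast
    ring
  exact hcw _

lemma act_e (X Y : Mat) (m n : ℤ) : act X Y (e m n) =
    (m : ℂ) • ((X 0 0 : ℂ) • (e (m + 1) n - e (m - 1) n)
      - (I * ((X 0 1 : ℂ) + (X 1 0 : ℂ)) / 2) • (e (m + 1) n + e (m - 1) n)
      + (I * ((X 0 1 : ℂ) - (X 1 0 : ℂ))) • e m n)
    + (n : ℂ) • ((Y 0 0 : ℂ) • (e m (n + 1) - e m (n - 1))
      - (I * ((Y 0 1 : ℂ) + (Y 1 0 : ℂ)) / 2) • (e m (n + 1) + e m (n - 1))
      + (I * ((Y 0 1 : ℂ) - (Y 1 0 : ℂ))) • e m n) := by
  conv_lhs => rw [e]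
  unfold act
  rw [Finsupp.linearCombination_single, one_smul]

/-- the pointwise derivative of the characters -/
lemma deriv_chi {γ : ℝ → G} {X Y : Mat} (h : Curve γ X Y) (hX : X.trace = 0) (hY : Y.trace = 0)
    (m n : ℤ) (x : X2) :
    HasDerivAt (fun t => pi0 (γ t) (chi (m, n)) x) (io (act X Y (e m n)) x) 0 := by
  have e1 : (fun t => pi0 (γ t) (chi (m, n)) x) = fun t =>
      (mob (γ t).1⁻¹ x.1 : ℂ) ^ m * (mob (γ t).2⁻¹ x.2 : ℂ) ^ n := by
    funext t
    rw [pi0_apply, chi_apply, Act_apply]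
    rfl
  have g1 : (γ 0).1 = 1 := by rw [h.one]; rfl
  have g2 : (γ 0).2 = 1 := by rw [h.one]; rfl
  have d1 := deriv_mob (γ := fun t => (γ t).1) g1 hX (fun i j => (h.tangent i j).1) x.1
  have d2 := deriv_mob (γ := fun t => (γ t).2) g2 hY (fun i j => (h.tangent i j).2) x.2
  have m1 : (mob (γ 0).1⁻¹ x.1) = x.1 := by rw [g1, inv_one]; exact mob_one _
  have m2 : (mob (γ 0).2⁻¹ x.2) = x.2 := by rw [g2, inv_one]; exact mob_one _
  have z1 := (hasDerivAt_zpow m (mob (γ 0).1⁻¹ x.1 : ℂ) (Or.inl (Circle.coe_ne_zero _))).comp 0 d1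
  have z2 := (hasDerivAt_zpow n (mob (γ 0).2⁻¹ x.2 : ℂ) (Or.inl (Circle.coe_ne_zero _))).comp 0 d2
  have z := z1.mul z2
  rw [e1]
  refine z.congr_deriv ?_
  simp only [Function.comp_def, m1, m2]
  have ex : ∀ (u : ℂ) (k : ℤ), u ≠ 0 → u ^ (k - 1) * (u ^ 2 - 1) = u ^ (k + 1) - u ^ (k - 1) := by
    intro u k hu
    rw [zpow_add₀ hu, zpow_sub₀ hu]; field_simp
  have ex2 : ∀ (u : ℂ) (k : ℤ), u ≠ 0 → u ^ (k - 1) * (u ^ 2 + 1) = u ^ (k + 1) + u ^ (k - 1) := by
    intro u k hu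
    rw [zpow_add₀ hu, zpow_sub₀ hu]; field_simp
  have ex3 : ∀ (u : ℂ) (k : ℤ), u ≠ 0 → u ^ (k - 1) * u = u ^ k := by
    intro u k hu
    rw [zpow_sub₀ hu]; field_simp
  have w1 := Circle.coe_ne_zero x.1
  have w2 := Circle.coe_ne_zero x.2
  have expand : io (act X Y (e m n)) x =
      (m : ℂ) * ((X 0 0 : ℂ) * (chi (m + 1, n) x - chi (m - 1, n) x)
        - (I * ((X 0 1 : ℂ) + X 1 0) / 2) * (chi (m + 1, n) x + chi (m - 1, n) x)
        + I * ((X 0 1 : ℂ) - X 1 0) * chi (m, n) x)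
      + (n : ℂ) * ((Y 0 0 : ℂ) * (chi (m, n + 1) x - chi (m, n - 1) x)
        - (I * ((Y 0 1 : ℂ) + Y 1 0) / 2) * (chi (m, n + 1) x + chi (m, n - 1) x)
        + I * ((Y 0 1 : ℂ) - Y 1 0) * chi (m, n) x) := by
    rw [act_e]
    simp only [map_add, map_sub, map_smul, io_e, ContinuousMap.add_apply, ContinuousMap.sub_apply,
      ContinuousMap.smul_apply, smul_eq_mul]
  rw [expand]
  simp only [chi_apply]
  have q1 := ex (x.1 : ℂ) m w1
  have q2 := ex2 (x.1 : ℂ) m w1
  have q3 := ex3 (x.1 : ℂ) m w1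
  have r1 := ex (x.2 : ℂ) n w2
  have r2 := ex2 (x.2 : ℂ) n w2
  have r3 := ex3 (x.2 : ℂ) n w2
  linear_combination (m * (x.2 : ℂ) ^ n * X 0 0) * q1
    - (m * (x.2 : ℂ) ^ n * (I * ((X 0 1 : ℂ) + X 1 0) / 2)) * q2
    + (m * (x.2 : ℂ) ^ n * (I * ((X 0 1 : ℂ) - X 1 0))) * q3
    + (n * (x.1 : ℂ) ^ m * Y 0 0) * r1
    - (n * (x.1 : ℂ) ^ m * (I * ((Y 0 1 : ℂ) + Y 1 0) / 2)) * r2
    + (n * (x.1 : ℂ) ^ m * (I * ((Y 0 1 : ℂ) - Y 1 0))) * r3

/-- tangent vectors have trace zero -/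
lemma Curve.trace {γ : ℝ → G} {X Y : Mat} (h : Curve γ X Y) : X.trace = 0 ∧ Y.trace = 0 := by
  have aux : ∀ (δ : ℝ → SL) (Z : Mat), δ 0 = 1 →
      (∀ i j : Fin 2, HasDerivAt (fun t => (δ t) i j) (Z i j) 0) → Z.trace = 0 := by
    intro δ Z h1 hd
    have hdet : ∀ t, (δ t) 0 0 * (δ t) 1 1 - (δ t) 0 1 * (δ t) 1 0 = 1 := by
      intro t
      have := (δ t).2
      rw [Matrix.det_fin_two] at this
      exact this
    have hD := (((hd 0 0).mul (hd 1 1)).sub ((hd 0 1).mul (hd 1 0)))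
    have hc : HasDerivAt (fun t => (δ t) 0 0 * (δ t) 1 1 - (δ t) 0 1 * (δ t) 1 0) 0 0 := by
      have : (fun t => (δ t) 0 0 * (δ t) 1 1 - (δ t) 0 1 * (δ t) 1 0) = fun _ => (1 : ℝ) :=
        funext hdet
      rw [this]
      exact hasDerivAt_const _ _
    have hu := hD.unique hc
    rw [h1] at hu
    rw [Matrix.trace_fin_two]
    simpa using hu
  refine ⟨aux (fun t => (γ t).1) X ?_ fun i j => (h.tangent i j).1,
    aux (fun t => (γ t).2) Y ?_ fun i j => (h.tangent i j).2⟩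
  · rw [h.one]; rfl
  · rw [h.one]; rfl

lemma deriv_io (v : V) {γ : ℝ → G} {X Y : Mat} (h : Curve γ X Y) :
    HasDerivAt (fun t => pi0 (γ t) (io v)) (io (act X Y v)) 0 := by
  obtain ⟨hX, hY⟩ := h.trace
  have hd : DifferentiableAt ℝ (fun t => pi0 (γ t) (io v)) 0 :=
    (smooth_io v γ h.smooth).differentiable (by simp) 0
  have h2 := hd.hasDerivAt
  refine h2.congr_deriv ?_
  apply ContinuousMap.ext
  intro x
  have h3 : HasDerivAt (fun t => pi0 (γ t) (io v) x) (deriv (fun t => pi0 (γ t) (io v)) 0 x) 0 := by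
    have h4 := (ContinuousMap.evalCLM ℝ x : E0 →L[ℝ] ℂ).hasFDerivAt.comp_hasDerivAt (0 : ℝ) h2
    exact h4
  refine h3.unique ?_
  clear h2 h3 hd
  induction v using Finsupp.induction_linear with
  | zero => simpa using hasDerivAt_const (0 : ℝ) (0 : ℂ)
  | add v w hv hw =>
    have : (fun t => pi0 (γ t) (io (v + w)) x) = fun t =>
        pi0 (γ t) (io v) x + pi0 (γ t) (io w) x := by
      funext t; rw [map_add, map_add]; rfl
    rw [this, map_add, map_add, ContinuousMap.add_apply]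
    exact hv.add hw
  | single p a =>
    have hs : (Finsupp.single p a : V) = a • e p.1 p.2 := by
      rw [e, Finsupp.smul_single]; simp
    have : (fun t => pi0 (γ t) (io (Finsupp.single p a)) x) = fun t =>
        a • pi0 (γ t) (chi (p.1, p.2)) x := by
      funext t
      rw [hs, map_smul, map_smul, io_e]; rfl
    rw [this, hs, map_smul, map_smul]
    exact (deriv_chi h hX hY p.1 p.2 x).const_smul a

lemma rot_io (v : V) (α β : ℝ) : pi0 (rot α, rot β) (io v) = io (kact α β v) := by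
  have key : ∀ (θ : ℝ) (w : Circle), (mob (rot θ)⁻¹ w : ℂ) = exp (-(2 * θ * I)) * w := by
    intro θ w
    rw [coe_mob_inv]
    have h1 : al (rot θ).1 = exp (θ * I) := by
      simp only [al, rot, Matrix.of_apply, Matrix.cons_val', Matrix.cons_val_zero,
        Matrix.cons_val_one, Matrix.cons_val_fin_one]
      rw [Complex.exp_mul_I, ← Complex.ofReal_cos, ← Complex.ofReal_sin]
      push_cast
      ring
    have h2 : be (rot θ).1 = 0 := by
      simp only [be, rot, Matrix.of_apply, Matrix.cons_val', Matrix.cons_val_zero,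
        Matrix.cons_val_one, Matrix.cons_val_fin_one]
      push_cast
      ring
    rw [h1, h2]
    simp only [map_zero, zero_mul, sub_zero]
    rw [← Complex.exp_conj, div_eq_mul_inv, ← Complex.exp_neg]
    simp only [map_mul, conj_ofReal, conj_I]
    rw [mul_right_comm, ← Complex.exp_add]
    congr 2
    ring
  induction v using Finsupp.induction_linear with
  | zero => simp
  | add v w hv hw => rw [map_add, map_add, hv, hw, map_add, map_add]
  | single p a =>
    have hs : (Finsupp.single p a : V) = a • e p.1 p.2 := by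
      rw [e, Finsupp.smul_single]; simp
    rw [hs, map_smul, map_smul, map_smul, map_smul]
    congr 1
    have h1 : kact α β (e p.1 p.2) = exp (-(2 * (p.1 * α + p.2 * β) * I)) • e p.1 p.2 := by
      unfold kact
      conv_lhs => rw [e]
      rw [Finsupp.linearCombination_single, one_smul]
    rw [h1, map_smul, io_e]
    apply ContinuousMap.ext
    intro x
    rw [pi0_apply, chi_apply, Act_apply, ContinuousMap.smul_apply, chi_apply, smul_eq_mul]
    have a1 : ((rot α, rot β) : G)⁻¹.1 = (rot α)⁻¹ := rfl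
    have a2 : ((rot α, rot β) : G)⁻¹.2 = (rot β)⁻¹ := rfl
    simp only [a1, a2, key]
    rw [mul_zpow, mul_zpow, ← Complex.exp_int_mul, ← Complex.exp_int_mul]
    rw [show exp (↑p.1 * -(2 * ↑α * I)) * (x.1 : ℂ) ^ p.1 *
      (exp (↑p.2 * -(2 * ↑β * I)) * (x.2 : ℂ) ^ p.2) =
      (exp (↑p.1 * -(2 * ↑α * I)) * exp (↑p.2 * -(2 * ↑β * I))) *
        ((x.1 : ℂ) ^ p.1 * (x.2 : ℂ) ^ p.2) by ring]
    rw [← Complex.exp_add]
    congr 2
    ring

/-- the characters as monoid homomorphisms -/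
noncomputable def chiM (p : ℤ × ℤ) : X2 →* ℂ where
  toFun x := chi p x
  map_one' := by rw [chi_apply]; simp
  map_mul' x y := by
    rw [chi_apply, chi_apply, chi_apply, Prod.fst_mul, Prod.snd_mul, Circle.coe_mul,
      Circle.coe_mul, mul_zpow, mul_zpow]
    ring

lemma exp_aux (k : ℤ) (h : ∀ w : Circle, (w : ℂ) ^ k = 1) : k = 0 := by
  by_contra hk
  have hk' : (k : ℝ) ≠ 0 := by exact_mod_cast hk
  have h1 := h (Circle.exp (Real.pi / k))
  rw [Circle.coe_exp, ← Complex.exp_int_mul] at h1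
  have : (k : ℂ) * (((Real.pi / k : ℝ) : ℂ) * I) = Real.pi * I := by
    push_cast
    have : (k : ℂ) ≠ 0 := by exact_mod_cast hk
    field_simp
  rw [this, Complex.exp_pi_mul_I] at h1
  norm_num at h1

lemma chiM_inj : Function.Injective chiM := by
  intro p q h
  have h1 : ∀ w : Circle, (w : ℂ) ^ p.1 = (w : ℂ) ^ q.1 := by
    intro w
    have := congrArg (fun f : X2 →* ℂ => f (w, 1)) h
    have h2 : chi p (w, 1) = chi q (w, 1) := this
    rw [chi_apply, chi_apply] at h2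
    simpa using h2
  have h2 : ∀ w : Circle, (w : ℂ) ^ p.2 = (w : ℂ) ^ q.2 := by
    intro w
    have := congrArg (fun f : X2 →* ℂ => f (1, w)) h
    have h2 : chi p (1, w) = chi q (1, w) := this
    rw [chi_apply, chi_apply] at h2
    simpa using h2
  have e1 : p.1 - q.1 = 0 := exp_aux _ fun w => by
    rw [zpow_sub₀ (Circle.coe_ne_zero w), h1, div_self (zpow_ne_zero _ (Circle.coe_ne_zero w))]
  have e2 : p.2 - q.2 = 0 := exp_aux _ fun w => by
    rw [zpow_sub₀ (Circle.coe_ne_zero w), h2, div_self (zpow_ne_zero _ (Circle.coe_ne_zero w))]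
  exact Prod.ext (by omega) (by omega)

lemma io_inj : Function.Injective io := by
  have h1 : LinearIndependent ℂ (fun f : X2 →* ℂ => (f : X2 → ℂ)) := linearIndependent_monoidHom X2 ℂ
  have h2 := h1.comp chiM chiM_inj
  rw [injective_iff_map_eq_zero]
  intro v hv
  rw [linearIndependent_iff] at h2
  apply h2 v
  funext x
  have h3 : io v x = 0 := by rw [hv]; rfl
  rw [io_apply] at h3
  rw [Finsupp.linearCombination_apply, Finsupp.sum, Finset.sum_apply]
  exact h3

lemma isNorm_supNorm : IsNorm supNorm where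
  eq_zero v := by
    rw [← norm_io, norm_eq_zero]
    constructor
    · intro h
      exact io_inj (by rw [h, map_zero])
    · rintro rfl
      simp
  add_le v w := by
    rw [← norm_io, ← norm_io, ← norm_io, map_add]
    exact norm_add_le _ _
  smul a v := by
    rw [← norm_io, ← norm_io, map_smul]
    exact norm_smul _ _

/-- the supremum norm is `G`-continuous -/
theorem gcont_supNorm : GContinuous supNorm :=
  ⟨isNorm_supNorm, E0, inferInstance, inferInstance, inferInstance, ⟨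
    { ι := io
      norm_ι := norm_io
      dense := dense_io
      π := pi0
      cont := continuous_pi0
      smooth := fun v _ γ h => smooth_io v γ h
      deriv := fun v _ _ _ h => deriv_io v h
      rot := rot_io }⟩⟩

end Pool.Agent.N535.GC
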