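import Pool.Agent.N535.GC.Deriv

set_option autoImplicit false

open Complex

namespace Pool.Agent.N535.GC

lemma V_ext {f g : V →ₗ[ℂ] V} (h : ∀ m n, f (e m n) = g (e m n)) : f = g := by
  apply Finsupp.lhom_ext
  intro p b
  have hs : (Finsupp.single p b : V) = b • e p.1 p.2 := by
    rw [e, Finsupp.smul_single]; simp
  rw [hs, map_smul, map_smul, h]

lemma kact_e (α β : ℝ) (m n : ℤ) :
    kact α β (e m n) = exp (-(2 * (m * α + n * β) * I)) • e m n := by
  unfold kact
  conv_lhs => rw [e]
  rw [Finsupp.linearCombination_single, one_smul]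

lemma kact_apply (α β : ℝ) (v : V) (p : ℤ × ℤ) :
    kact α β v p = exp (-(2 * (p.1 * α + p.2 * β) * I)) * v p := by
  induction v using Finsupp.induction_linear with
  | zero => simp
  | add v w hv hw => rw [map_add, Finsupp.add_apply, hv, hw, Finsupp.add_apply]; ring
  | single q a =>
    have hs : (Finsupp.single q a : V) = a • e q.1 q.2 := by
      rw [e, Finsupp.smul_single]; simp
    rw [hs, map_smul, kact_e, e, Finsupp.smul_single, Finsupp.smul_single, Finsupp.smul_single]
    by_cases hqp : q = p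
    · subst hqp
      simp [mul_comm]
    · rw [Finsupp.single_eq_of_ne (by simpa using Ne.symm hqp),
        Finsupp.single_eq_of_ne (by simpa using Ne.symm hqp), mul_zero]

lemma act_add (X Y X' Y' : Mat) (v : V) : act (X + X') (Y + Y') v = act X Y v + act X' Y' v := by
  have : act (X + X') (Y + Y') = act X Y + act X' Y' := by
    apply V_ext
    intro m n
    rw [LinearMap.add_apply, act_e, act_e, act_e]
    simp only [Matrix.add_apply]
    push_cast
    module
  rw [this]; rfl

lemma act_smul (r : ℝ) (X Y : Mat) (v : V) : act (r • X) (r • Y) v = (r : ℂ) • act X Y v := by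
  have : act (r • X) (r • Y) = (r : ℂ) • act X Y := by
    apply V_ext
    intro m n
    rw [LinearMap.smul_apply, act_e, act_e]
    simp only [Matrix.smul_apply, smul_eq_mul]
    push_cast
    module
  rw [this]; rfl

lemma act_bracket (X Y X' Y' : Mat) (hX : X.trace = 0) (hY : Y.trace = 0) (hX' : X'.trace = 0)
    (hY' : Y'.trace = 0) (v : V) : act (X * X' - X' * X) (Y * Y' - Y' * Y) v =
      act X Y (act X' Y' v) - act X' Y' (act X Y v) := by
  have : act (X * X' - X' * X) (Y * Y' - Y' * Y) =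
      (act X Y).comp (act X' Y') - (act X' Y').comp (act X Y) := by
    rw [Matrix.trace_fin_two] at hX hY hX' hY'
    have e1 : X 1 1 = - X 0 0 := by linarith
    have e2 : Y 1 1 = - Y 0 0 := by linarith
    have e3 : X' 1 1 = - X' 0 0 := by linarith
    have e4 : Y' 1 1 = - Y' 0 0 := by linarith
    apply V_ext
    intro m n
    rw [LinearMap.sub_apply, LinearMap.comp_apply, LinearMap.comp_apply, act_e, act_e, act_e]
    simp only [map_add, map_sub, map_smul, act_e, Matrix.sub_apply, Matrix.mul_apply,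
      Fin.sum_univ_two, e1, e2, e3, e4]
    have s1 : m + 1 + 1 = m + 2 := by ring
    have s2 : m - 1 - 1 = m - 2 := by ring
    have s3 : n + 1 + 1 = n + 2 := by ring
    have s4 : n - 1 - 1 = n - 2 := by ring
    simp only [s1, s2, s3, s4, add_sub_cancel_right, sub_add_cancel]
    push_cast
    generalize (X 0 0 : ℂ) = x1
    generalize (X 0 1 : ℂ) = x2
    generalize (X 1 0 : ℂ) = x3
    generalize (Y 0 0 : ℂ) = y1
    generalize (Y 0 1 : ℂ) = y2
    generalize (Y 1 0 : ℂ) = y3
    generalize (X' 0 0 : ℂ) = z1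
    generalize (X' 0 1 : ℂ) = z2
    generalize (X' 1 0 : ℂ) = z3
    generalize (Y' 0 0 : ℂ) = w1
    generalize (Y' 0 1 : ℂ) = w2
    generalize (Y' 1 0 : ℂ) = w3
    ext p
    simp only [Finsupp.add_apply, Finsupp.sub_apply, Finsupp.smul_apply, smul_eq_mul]
    ring_nf
    simp only [I_sq]
    ring
  rw [this]; rfl

lemma exp_cs (α : ℝ) : exp (α * I) = (Real.cos α : ℂ) + (Real.sin α : ℂ) * I := by
  rw [Complex.exp_mul_I, Complex.ofReal_cos, Complex.ofReal_sin]

lemma kact_congr (α β α' β' : ℝ) (h1 : rot α = rot α') (h2 : rot β = rot β') :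
    kact α β = kact α' β' := by
  have aux : ∀ a a' : ℝ, rot a = rot a' → exp (a * I) = exp (a' * I) := by
    intro a a' h
    have h3 := congrArg (fun g : SL => (g : Mat) 0 0) h
    have h4 := congrArg (fun g : SL => (g : Mat) 1 0) h
    simp only [rot, Matrix.of_apply, Matrix.cons_val', Matrix.cons_val_zero,
      Matrix.cons_val_one, Matrix.cons_val_fin_one] at h3 h4
    rw [exp_cs, exp_cs, h3, h4]
  apply V_ext
  intro m n
  rw [kact_e, kact_e]
  congr 1
  have key : ∀ a b : ℝ, exp (-(2 * (m * a + n * b) * I)) =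
      exp (a * I) ^ (-2 * m) * exp (b * I) ^ (-2 * n) := by
    intro a b
    rw [← Complex.exp_int_mul, ← Complex.exp_int_mul, ← Complex.exp_add]
    congr 1
    push_cast
    ring
  rw [key, key, aux α α' h1, aux β β' h2]

lemma kact_add (α β α' β' : ℝ) (v : V) :
    kact (α + α') (β + β') v = kact α β (kact α' β' v) := by
  ext p
  rw [kact_apply, kact_apply, kact_apply, ← mul_assoc, ← Complex.exp_add]
  congr 2
  push_cast
  ring

lemma kact_zero (v : V) : kact 0 0 v = v := by
  ext p
  rw [kact_apply]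
  simp

lemma kact_act (α β : ℝ) (X Y : Mat) (v : V) (hX : X.trace = 0) (hY : Y.trace = 0) :
    kact α β (act X Y v) =
      act ((rot α : Mat) * X * (rot (-α) : Mat)) ((rot β : Mat) * Y * (rot (-β) : Mat))
        (kact α β v) := by
  have : (kact α β).comp (act X Y) =
      (act ((rot α : Mat) * X * (rot (-α) : Mat)) ((rot β : Mat) * Y * (rot (-β) : Mat))).comp
        (kact α β) := by
    rw [Matrix.trace_fin_two] at hX hY
    have x11 : X 1 1 = - X 0 0 := by linarith
    have y11 : Y 1 1 = - Y 0 0 := by linarith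
    have coef : ∀ (θ : ℝ) (Z : Mat), Z 1 1 = - Z 0 0 →
        ((((rot θ : Mat) * Z * (rot (-θ) : Mat)) 0 0 : ℝ) : ℂ) -
          I * (((((rot θ : Mat) * Z * (rot (-θ) : Mat)) 0 1 : ℝ) : ℂ) +
            ((((rot θ : Mat) * Z * (rot (-θ) : Mat)) 1 0 : ℝ) : ℂ)) / 2 =
          ((Z 0 0 : ℂ) - I * ((Z 0 1 : ℂ) + Z 1 0) / 2) * exp (-(2 * θ * I)) ∧
        ((((rot θ : Mat) * Z * (rot (-θ) : Mat)) 0 0 : ℝ) : ℂ) +
          I * (((((rot θ : Mat) * Z * (rot (-θ) : Mat)) 0 1 : ℝ) : ℂ) +
            ((((rot θ : Mat) * Z * (rot (-θ) : Mat)) 1 0 : ℝ) : ℂ)) / 2 =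
          ((Z 0 0 : ℂ) + I * ((Z 0 1 : ℂ) + Z 1 0) / 2) * exp (2 * θ * I) ∧
        ((((rot θ : Mat) * Z * (rot (-θ) : Mat)) 0 1 : ℝ) : ℂ) -
            ((((rot θ : Mat) * Z * (rot (-θ) : Mat)) 1 0 : ℝ) : ℂ) = (Z 0 1 : ℂ) - Z 1 0 := by
      intro θ Z hZ
      have q1 : exp (-(2 * θ * I)) = ((Real.cos θ : ℂ) - (Real.sin θ : ℂ) * I) ^ 2 := by
        have h := exp_cs (-θ)
        rw [Real.cos_neg, Real.sin_neg] at h
        have h2 : (Real.cos θ : ℂ) - (Real.sin θ : ℂ) * I = exp (((-θ : ℝ) : ℂ) * I) := by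
          rw [h]; push_cast; ring
        rw [h2, ← Complex.exp_nat_mul]
        congr 1
        push_cast
        ring
      have q2 : exp (2 * θ * I) = ((Real.cos θ : ℂ) + (Real.sin θ : ℂ) * I) ^ 2 := by
        rw [← exp_cs, ← Complex.exp_nat_mul]
        congr 1
        push_cast
        ring
      rw [q1, q2]
      simp only [rot, Real.cos_neg, Real.sin_neg, neg_neg, Matrix.mul_apply, Fin.sum_univ_two,
        Matrix.of_apply, Matrix.cons_val', Matrix.cons_val_zero, Matrix.cons_val_one,
        Matrix.cons_val_fin_one, hZ]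
      push_cast
      generalize (Z 0 0 : ℂ) = z1
      generalize (Z 0 1 : ℂ) = z2
      generalize (Z 1 0 : ℂ) = z3
      refine ⟨?_, ?_, ?_⟩
      · ring_nf
        simp only [I_sq, show I ^ 3 = - I by rw [pow_succ, I_sq]; ring]
        ring
      · ring_nf
        simp only [I_sq, show I ^ 3 = - I by rw [pow_succ, I_sq]; ring]
        ring
      · linear_combination (z2 - z3) * Complex.sin_sq_add_cos_sq (θ : ℂ)
    obtain ⟨a1, a2, a3⟩ := coef α X x11
    obtain ⟨b1, b2, b3⟩ := coef β Y y11
    apply V_ext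
    intro m n
    rw [LinearMap.comp_apply, LinearMap.comp_apply, kact_e, map_smul, act_e, act_e]
    simp only [map_add, map_sub, map_smul, kact_e]
    generalize ((((rot α : Mat) * X * (rot (-α) : Mat)) 0 0 : ℝ) : ℂ) = u1 at *
    generalize ((((rot α : Mat) * X * (rot (-α) : Mat)) 0 1 : ℝ) : ℂ) = u2 at *
    generalize ((((rot α : Mat) * X * (rot (-α) : Mat)) 1 0 : ℝ) : ℂ) = u3 at *
    generalize ((((rot β : Mat) * Y * (rot (-β) : Mat)) 0 0 : ℝ) : ℂ) = w1 at *
    generalize ((((rot β : Mat) * Y * (rot (-β) : Mat)) 0 1 : ℝ) : ℂ) = w2 at *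
    generalize ((((rot β : Mat) * Y * (rot (-β) : Mat)) 1 0 : ℝ) : ℂ) = w3 at *
    have k1 : exp (-(2 * (((m + 1 : ℤ) : ℂ) * α + n * β) * I)) =
        exp (-(2 * (m * α + n * β) * I)) * exp (-(2 * α * I)) := by
      rw [← Complex.exp_add]; congr 1; push_cast; ring
    have k2 : exp (-(2 * (((m - 1 : ℤ) : ℂ) * α + n * β) * I)) =
        exp (-(2 * (m * α + n * β) * I)) * exp (2 * α * I) := by
      rw [← Complex.exp_add]; congr 1; push_cast; ring
    have k3 : exp (-(2 * (m * α + ((n + 1 : ℤ) : ℂ) * β) * I)) =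
        exp (-(2 * (m * α + n * β) * I)) * exp (-(2 * β * I)) := by
      rw [← Complex.exp_add]; congr 1; push_cast; ring
    have k4 : exp (-(2 * (m * α + ((n - 1 : ℤ) : ℂ) * β) * I)) =
        exp (-(2 * (m * α + n * β) * I)) * exp (2 * β * I) := by
      rw [← Complex.exp_add]; congr 1; push_cast; ring
    rw [k1, k2, k3, k4]
    generalize exp (-(2 * (m * α + n * β) * I)) = κ
    generalize exp (-(2 * (α : ℂ) * I)) = q1 at *
    generalize exp (2 * (α : ℂ) * I) = q2 at *
    generalize exp (-(2 * (β : ℂ) * I)) = q3 at *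
    generalize exp (2 * (β : ℂ) * I) = q4 at *
    ext p
    simp only [Finsupp.add_apply, Finsupp.sub_apply, Finsupp.smul_apply, smul_eq_mul]
    linear_combination (-(m : ℂ) * κ * (e (m + 1) n) p) * a1 + ((m : ℂ) * κ * (e (m - 1) n) p) * a2
      - ((m : ℂ) * κ * I * (e m n) p) * a3
      - ((n : ℂ) * κ * (e m (n + 1)) p) * b1 + ((n : ℂ) * κ * (e m (n - 1)) p) * b2
      - ((n : ℂ) * κ * I * (e m n) p) * b3
  exact LinearMap.congr_fun this v

lemma actJ_apply (r s : ℝ) (v : V) (p : ℤ × ℤ) :
    act (r • J) (s • J) v p = (-(2 * (p.1 * r + p.2 * s) * I)) * v p := by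
  induction v using Finsupp.induction_linear with
  | zero => simp
  | add v w hv hw => rw [map_add, Finsupp.add_apply, hv, hw, Finsupp.add_apply]; ring
  | single q a =>
    have hs : (Finsupp.single q a : V) = a • e q.1 q.2 := by
      rw [e, Finsupp.smul_single]; simp
    have h1 : act (r • J) (s • J) (e q.1 q.2) = (-(2 * (q.1 * r + q.2 * s) * I)) • e q.1 q.2 := by
      rw [act_e]
      simp only [J, Matrix.smul_apply, Matrix.of_apply, Matrix.cons_val', Matrix.cons_val_zero,
        Matrix.cons_val_one, Matrix.cons_val_fin_one, smul_eq_mul]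
      push_cast
      module
    rw [hs, map_smul, h1, e, Finsupp.smul_single, Finsupp.smul_single, Finsupp.smul_single]
    by_cases hqp : q = p
    · subst hqp
      simp
      ring
    · rw [Finsupp.single_eq_of_ne (by simpa using Ne.symm hqp),
        Finsupp.single_eq_of_ne (by simpa using Ne.symm hqp), mul_zero]

lemma kact_deriv (r s : ℝ) (v : V) (p : ℤ × ℤ) :
    HasDerivAt (fun t : ℝ => kact (t * r) (t * s) v p) (act (r • J) (s • J) v p) 0 := by
  rw [actJ_apply]
  have h1 : (fun t : ℝ => kact (t * r) (t * s) v p) = fun t : ℝ =>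
      exp ((t : ℂ) * (-(2 * (p.1 * r + p.2 * s) * I))) * v p := by
    funext t
    rw [kact_apply]
    congr 2
    push_cast
    ring
  rw [h1]
  have h2 : HasDerivAt (fun t : ℝ => exp ((t : ℂ) * (-(2 * (p.1 * r + p.2 * s) * I))))
      (-(2 * (p.1 * r + p.2 * s) * I)) 0 := by
    have h3 := ((hasDerivAt_id (0 : ℝ)).ofReal_comp.mul_const (-(2 * (p.1 * r + p.2 * s) * I))).cexp
    refine h3.congr_deriv ?_
    simp
  exact h2.mul_const _

lemma admissible (k l : ℤ) : ∃ w : V, ∀ v : V,
    (∀ α β : ℝ, kact α β v = exp (-((k * α + l * β) * I)) • v) → ∃ a : ℂ, v = a • w := by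
  refine ⟨e (k / 2) (l / 2), fun v hv => ⟨v (k / 2, l / 2), ?_⟩⟩
  have key : ∀ p, v p ≠ 0 → 2 * p.1 = k ∧ 2 * p.2 = l := by
    intro p hp
    have h1 : ∀ α β : ℝ, exp (-(2 * (p.1 * α + p.2 * β) * I)) = exp (-((k * α + l * β) * I)) := by
      intro α β
      have h2 := congrArg (fun u : V => u p) (hv α β)
      simp only [kact_apply, Finsupp.smul_apply, smul_eq_mul] at h2
      exact mul_right_cancel₀ hp h2
    constructor
    · have := exp_aux (2 * p.1 - k) (fun w => by
        obtain ⟨α, rfl⟩ := Circle.exp_surjective w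
        rw [Circle.coe_exp, ← Complex.exp_int_mul]
        have h3 := h1 (-α) 0
        have h4 : ((2 * p.1 - k : ℤ) : ℂ) * (α * I) = -(2 * (p.1 * ((-α : ℝ) : ℂ) + p.2 * ((0 : ℝ) : ℂ)) * I)
            - -((k * ((-α : ℝ) : ℂ) + l * ((0 : ℝ) : ℂ)) * I) := by push_cast; ring
        rw [h4, Complex.exp_sub, h3, div_self (Complex.exp_ne_zero _)])
      omega
    · have := exp_aux (2 * p.2 - l) (fun w => by
        obtain ⟨α, rfl⟩ := Circle.exp_surjective w
        rw [Circle.coe_exp, ← Complex.exp_int_mul]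
        have h3 := h1 0 (-α)
        have h4 : ((2 * p.2 - l : ℤ) : ℂ) * (α * I) = -(2 * (p.1 * ((0 : ℝ) : ℂ) + p.2 * ((-α : ℝ) : ℂ)) * I)
            - -((k * ((0 : ℝ) : ℂ) + l * ((-α : ℝ) : ℂ)) * I) := by push_cast; ring
        rw [h4, Complex.exp_sub, h3, div_self (Complex.exp_ne_zero _)])
      omega
  ext p
  rw [e, Finsupp.smul_single, smul_eq_mul, mul_one]
  by_cases hp : p = (k / 2, l / 2)
  · rw [hp, Finsupp.single_eq_same]
  · rw [Finsupp.single_eq_of_ne hp]
    by_contra hne
    obtain ⟨h1, h2⟩ := key p hne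
    exact hp (Prod.ext (by simp only; omega) (by simp only; omega))

lemma mem_span_e (v : V) (W : Submodule ℂ V) (h : ∀ p ∈ v.support, e p.1 p.2 ∈ W) : v ∈ W := by
  rw [← Finsupp.sum_single v]
  refine Submodule.sum_mem _ fun p hp => ?_
  have hs : (Finsupp.single p (v p) : V) = v p • e p.1 p.2 := by
    rw [e, Finsupp.smul_single]; simp
  rw [hs]
  exact W.smul_mem _ (h p hp)

lemma generated : ∃ S : Finset V, ∀ W : Submodule ℂ V, (S : Set V) ⊆ W →
    (∀ X Y : Mat, X.trace = 0 → Y.trace = 0 → ∀ v ∈ W, act X Y v ∈ W) → W = ⊤ := by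
  classical
  refine ⟨{e 1 1, e 1 (-1), e (-1) 1, e (-1) (-1)}, fun W hS hW => ?_⟩
  have s1 : e 1 1 ∈ W := hS (by simp)
  have s2 : e 1 (-1) ∈ W := hS (by simp)
  have s3 : e (-1) 1 ∈ W := hS (by simp)
  have s4 : e (-1) (-1) ∈ W := hS (by simp)
  have stepx : ∀ m n : ℤ, m ≠ 0 → e m n ∈ W → e (m + 1) n ∈ W ∧ e (m - 1) n ∈ W := by
    intro m n hm h
    have h1 := hW !![1, 0; 0, -1] 0 (by simp [Matrix.trace_fin_two]) (by simp) _ h
    have h2 := hW !![0, 1; 1, 0] 0 (by simp [Matrix.trace_fin_two]) (by simp) _ h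
    rw [act_e] at h1 h2
    simp at h1 h2
    have hm' : (m : ℂ) ≠ 0 := by exact_mod_cast hm
    have h3 := W.smul_mem (1 / (2 * m) : ℂ) h1
    have h4 := W.smul_mem (I / (2 * m) : ℂ) h2
    constructor
    · convert W.add_mem h3 h4 using 1
      ext p
      simp only [Finsupp.add_apply, Finsupp.sub_apply, Finsupp.smul_apply, Finsupp.neg_apply,
        smul_eq_mul]
      field_simp
      ring_nf
      simp only [I_sq]
      ring
    · convert W.sub_mem h4 h3 using 1
      ext p
      simp only [Finsupp.add_apply, Finsupp.sub_apply, Finsupp.smul_apply, Finsupp.neg_apply,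
        smul_eq_mul]
      field_simp
      ring_nf
      simp only [I_sq]
      ring
  have stepy : ∀ m n : ℤ, n ≠ 0 → e m n ∈ W → e m (n + 1) ∈ W ∧ e m (n - 1) ∈ W := by
    intro m n hm h
    have h1 := hW 0 !![1, 0; 0, -1] (by simp) (by simp [Matrix.trace_fin_two]) _ h
    have h2 := hW 0 !![0, 1; 1, 0] (by simp) (by simp [Matrix.trace_fin_two]) _ h
    rw [act_e] at h1 h2
    simp at h1 h2
    have hm' : (n : ℂ) ≠ 0 := by exact_mod_cast hm
    have h3 := W.smul_mem (1 / (2 * n) : ℂ) h1
    have h4 := W.smul_mem (I / (2 * n) : ℂ) h2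
    constructor
    · convert W.add_mem h3 h4 using 1
      ext p
      simp only [Finsupp.add_apply, Finsupp.sub_apply, Finsupp.smul_apply, Finsupp.neg_apply,
        smul_eq_mul]
      field_simp
      ring_nf
      simp only [I_sq]
      ring
    · convert W.sub_mem h4 h3 using 1
      ext p
      simp only [Finsupp.add_apply, Finsupp.sub_apply, Finsupp.smul_apply, Finsupp.neg_apply,
        smul_eq_mul]
      field_simp
      ring_nf
      simp only [I_sq]
      ring
  have fill : ∀ P : ℤ → Prop, P 1 → P (-1) → (∀ m, m ≠ 0 → P m → P (m + 1) ∧ P (m - 1)) →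
      ∀ m, P m := by
    intro P p1 pm1 hst m
    have hpos : ∀ k : ℕ, P (k + 1) := by
      intro k
      induction k with
      | zero => simpa using p1
      | succ k ih =>
        have := (hst _ (by omega) ih).1
        push_cast
        exact this
    have hneg : ∀ k : ℕ, P (-1 - k) := by
      intro k
      induction k with
      | zero => simpa using pm1
      | succ k ih =>
        have := (hst _ (by omega) ih).2
        rw [show (-1 - ((k + 1 : ℕ) : ℤ)) = -1 - (k : ℤ) - 1 by push_cast; ring]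
        exact this
    rcases lt_trichotomy m 0 with h | h | h
    · have := hneg (-1 - m).toNat
      rwa [Int.toNat_of_nonneg (by omega), sub_sub_cancel] at this
    · rw [h]
      have := (hst 1 (by norm_num) p1).2
      simpa using this
    · have := hpos (m - 1).toNat
      rwa [Int.toNat_of_nonneg (by omega), sub_add_cancel] at this
  have r1 : ∀ m, e m 1 ∈ W := fill _ s1 s3 fun m hm h => stepx m 1 hm h
  have r2 : ∀ m, e m (-1) ∈ W := fill _ s2 s4 fun m hm h => stepx m (-1) hm h
  have r3 : ∀ m n, e m n ∈ W := fun m => fill _ (r1 m) (r2 m) fun n hn h => stepy m n hn h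
  rw [eq_top_iff]
  intro v _
  exact mem_span_e v W fun p _ => r3 p.1 p.2

lemma kfinite (v : V) : ∃ W : Submodule ℂ V, FiniteDimensional ℂ W ∧ v ∈ W ∧
    ∀ α β : ℝ, ∀ w ∈ W, kact α β w ∈ W := by
  classical
  refine ⟨Submodule.span ℂ ((v.support.image fun p => e p.1 p.2 : Finset V) : Set V),
    FiniteDimensional.span_finset _ _, ?_, ?_⟩
  · refine mem_span_e v _ fun p hp => Submodule.subset_span ?_
    rw [Finset.mem_coe, Finset.mem_image]
    exact ⟨p, hp, rfl⟩
  · intro α β w hw
    induction hw using Submodule.span_induction with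
    | mem x hx =>
      rw [Finset.mem_coe, Finset.mem_image] at hx
      obtain ⟨p, hp, rfl⟩ := hx
      rw [kact_e]
      refine Submodule.smul_mem _ _ (Submodule.subset_span ?_)
      rw [Finset.mem_coe, Finset.mem_image]
      exact ⟨p, hp, rfl⟩
    | zero => rw [map_zero]; exact zero_mem _
    | add x y _ _ hx hy => rw [map_add]; exact add_mem hx hy
    | smul a x _ hx => rw [map_smul]; exact Submodule.smul_mem _ _ hx

/-- `V` is a Harish-Chandra module -/
theorem isHC : IsHCModule where
  act_add := act_add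
  act_smul := act_smul
  act_bracket := act_bracket
  kact_congr := kact_congr
  kact_add := kact_add
  kact_zero := kact_zero
  kact_act := kact_act
  kact_deriv := kact_deriv
  admissible := admissible
  generated := generated
  kfinite := kfinite

end Pool.Agent.N535.GC
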