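import Pool.Agent.N535.GC.Defs

set_option autoImplicit false

open Complex Matrix
open scoped ContDiff

namespace Pool.Agent.N535.GC

/-- the space -/
abbrev X2 : Type := Circle × Circle

/-- `α` of a matrix -/
noncomputable def al (g : Mat) : ℂ := ((g 0 0 + g 1 1 : ℝ) + (g 1 0 - g 0 1 : ℝ) * I) / 2

/-- `β` of a matrix -/
noncomputable def be (g : Mat) : ℂ := ((g 0 0 - g 1 1 : ℝ) + (g 1 0 + g 0 1 : ℝ) * I) / 2

lemma al_mul (g h : Mat) : al (g * h) = al g * al h + be g * (starRingEnd ℂ) (be h) := by
  simp only [al, be, Matrix.mul_apply, Fin.sum_univ_two, map_div₀, map_add, map_mul, conj_ofReal,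
    conj_I, map_ofNat]
  push_cast
  ring_nf
  simp only [I_sq]
  ring

lemma be_mul (g h : Mat) : be (g * h) = al g * be h + be g * (starRingEnd ℂ) (al h) := by
  simp only [al, be, Matrix.mul_apply, Fin.sum_univ_two, map_div₀, map_add, map_mul, conj_ofReal,
    conj_I, map_ofNat]
  push_cast
  ring_nf
  simp only [I_sq]
  ring

lemma normSq_sub (g : Mat) (h : g.det = 1) : ‖al g‖ ^ 2 - ‖be g‖ ^ 2 = 1 := by
  rw [← Complex.normSq_eq_norm_sq, ← Complex.normSq_eq_norm_sq]
  rw [Matrix.det_fin_two] at h
  simp only [al, be, map_div₀, Complex.normSq_add_mul_I]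
  have : Complex.normSq 2 = 4 := by
    rw [show (2 : ℂ) = ((2 : ℝ) : ℂ) by norm_num, Complex.normSq_ofReal]; norm_num
  rw [this]
  field_simp
  nlinarith [h]

lemma num_ne {g : Mat} (h : g.det = 1) (w : ℂ) (hw : ‖w‖ = 1) : al g * w + be g ≠ 0 := by
  intro h0
  have h1 : ‖al g‖ = ‖be g‖ := by
    have : al g * w = - be g := by linear_combination h0
    rw [← norm_neg (be g), ← this, norm_mul, hw, mul_one]
  have := normSq_sub g h
  rw [h1] at this
  simp at this

lemma conj_mul_self {w : ℂ} (hw : ‖w‖ = 1) : (starRingEnd ℂ) w * w = 1 := by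
  rw [← Complex.normSq_eq_conj_mul_self, Complex.normSq_eq_norm_sq, hw]; norm_num

/-- the Möbius action on the circle -/
noncomputable def mob (g : SL) (w : Circle) : Circle :=
  Circle.ofConjDivSelf ((starRingEnd ℂ) (al g.1 * w + be g.1)) (by
    rw [Ne, map_eq_zero]
    exact num_ne g.2 w (by simp)) * w⁻¹

lemma coe_mob (g : SL) (w : Circle) : (mob g w : ℂ) =
    (al g.1 * w + be g.1) / ((starRingEnd ℂ) (be g.1) * w + (starRingEnd ℂ) (al g.1)) := by
  have hw : ‖(w : ℂ)‖ = 1 := by simp
  have h1 := conj_mul_self hw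
  have h0 : (w : ℂ) ≠ 0 := by
    intro h; rw [h] at hw; simp at hw
  have h2 : (starRingEnd ℂ) (al g.1 * w + be g.1) * w =
      (starRingEnd ℂ) (be g.1) * w + (starRingEnd ℂ) (al g.1) := by
    rw [map_add, map_mul]
    linear_combination (starRingEnd ℂ) (al g.1) * h1
  have h3 : (starRingEnd ℂ) (al g.1 * w + be g.1) ≠ 0 := by
    rw [Ne, map_eq_zero]
    exact num_ne g.2 w hw
  rw [← h2]
  simp only [mob, Circle.coe_mul, Circle.ofConjDivSelf, Circle.coe_inv]
  rw [starRingEnd_self_apply]
  field_simp

lemma den_ne (g : SL) (w : Circle) :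
    (starRingEnd ℂ) (be g.1) * w + (starRingEnd ℂ) (al g.1) ≠ 0 := by
  have hw : ‖(w : ℂ)‖ = 1 := by simp
  have h1 := conj_mul_self hw
  have h0 : (w : ℂ) ≠ 0 := by
    intro h; rw [h] at hw; simp at hw
  have h2 : (starRingEnd ℂ) (al g.1 * w + be g.1) * w =
      (starRingEnd ℂ) (be g.1) * w + (starRingEnd ℂ) (al g.1) := by
    rw [map_add, map_mul]
    linear_combination (starRingEnd ℂ) (al g.1) * h1
  have h3 : (starRingEnd ℂ) (al g.1 * w + be g.1) ≠ 0 := by
    rw [Ne, map_eq_zero]
    exact num_ne g.2 w hw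
  rw [← h2]
  exact mul_ne_zero h3 h0

lemma mob_mul (g h : SL) (w : Circle) : mob (g * h) w = mob g (mob h w) := by
  apply Circle.ext
  have e1 := den_ne h w
  have e2 := den_ne g (mob h w)
  have e3 := den_ne (g * h) w
  rw [coe_mob, coe_mob g, coe_mob h]
  rw [coe_mob h] at e2
  have c1 : ((g * h : SL).1 : Mat) = g.1 * h.1 := rfl
  rw [c1] at e3 ⊢
  rw [al_mul, be_mul] at e3 ⊢
  simp only [map_add, map_mul, starRingEnd_self_apply] at e3 ⊢
  rw [div_eq_div_iff e3 e2]
  field_simp
  ring

lemma al_one : al (1 : Mat) = 1 := by simp [al]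
lemma be_one : be (1 : Mat) = 0 := by simp [be]

lemma mob_one (w : Circle) : mob 1 w = w := by
  apply Circle.ext
  rw [coe_mob]
  have c1 : ((1 : SL).1 : Mat) = 1 := rfl
  rw [c1, al_one, be_one]
  simp

lemma continuous_al : Continuous (fun g : SL => al g.1) := by
  unfold al
  have h : ∀ i j : Fin 2, Continuous fun g : SL => g.1 i j := fun i j =>
    (continuous_apply j).comp ((continuous_apply i).comp continuous_subtype_val)
  have h00 := h 0 0
  have h01 := h 0 1
  have h10 := h 1 0
  have h11 := h 1 1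
  fun_prop

lemma continuous_be : Continuous (fun g : SL => be g.1) := by
  unfold be
  have h : ∀ i j : Fin 2, Continuous fun g : SL => g.1 i j := fun i j =>
    (continuous_apply j).comp ((continuous_apply i).comp continuous_subtype_val)
  have h00 := h 0 0
  have h01 := h 0 1
  have h10 := h 1 0
  have h11 := h 1 1
  fun_prop

lemma continuous_cc : Continuous (fun w : Circle => (w : ℂ)) := continuous_subtype_val

lemma continuous_mob {Y : Type} [TopologicalSpace Y] {f : Y → SL} {h : Y → Circle}
    (hf : Continuous f) (hh : Continuous h) : Continuous (fun y => mob (f y) (h y)) := by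
  apply continuous_induced_rng.2
  change Continuous (fun y : Y => (mob (f y) (h y) : ℂ))
  have : (fun y : Y => (mob (f y) (h y) : ℂ)) = fun y : Y =>
      (al (f y).1 * h y + be (f y).1) /
        ((starRingEnd ℂ) (be (f y).1) * h y + (starRingEnd ℂ) (al (f y).1)) := by
    funext y
    exact coe_mob (f y) (h y)
  rw [this]
  have h1 : Continuous fun y : Y => al (f y).1 := continuous_al.comp hf
  have h2 : Continuous fun y : Y => be (f y).1 := continuous_be.comp hf
  have h3 : Continuous fun y : Y => (h y : ℂ) := continuous_cc.comp hh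
  refine Continuous.div ((h1.mul h3).add h2) ?_ fun y => den_ne (f y) (h y)
  exact ((Complex.continuous_conj.comp h2).mul h3).add (Complex.continuous_conj.comp h1)

attribute [irreducible] mob

/-- the action on `X2` -/
noncomputable def Act (g : G) : C(X2, X2) where
  toFun x := (mob g.1 x.1, mob g.2 x.2)
  continuous_toFun := (continuous_mob continuous_const continuous_fst).prodMk
    (continuous_mob continuous_const continuous_snd)

lemma Act_apply (g : G) (x : X2) : Act g x = (mob g.1 x.1, mob g.2 x.2) := rfl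

lemma continuous_Act : Continuous Act := by
  have h : Continuous fun x : G × X2 => ((mob x.1.1 x.2.1, mob x.1.2 x.2.2) : X2) :=
    (continuous_mob (continuous_fst.comp continuous_fst)
      (continuous_fst.comp continuous_snd)).prodMk
    (continuous_mob (continuous_snd.comp continuous_fst)
      (continuous_snd.comp continuous_snd))
  exact (ContinuousMap.curry ⟨_, h⟩).continuous

lemma Act_mul (g h : G) : Act (g * h) = (Act g).comp (Act h) := by
  apply ContinuousMap.ext
  intro x
  rw [ContinuousMap.comp_apply, Act_apply, Act_apply, Act_apply]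
  exact Prod.ext (mob_mul g.1 h.1 x.1) (mob_mul g.2 h.2 x.2)

lemma Act_one : Act 1 = ContinuousMap.id X2 := by
  apply ContinuousMap.ext
  intro x
  rw [Act_apply]
  exact Prod.ext (mob_one x.1) (mob_one x.2)

/-- the Banach space -/
abbrev E0 : Type := C(X2, ℂ)

/-- composition with `Act g⁻¹` -/
noncomputable def pi1 (g : G) : E0 →L[ℂ] E0 := LinearMap.mkContinuous
    { toFun := fun f : E0 => f.comp (Act g⁻¹)
      map_add' := fun f h => rfl
      map_smul' := fun a f => rfl } 1 (by
        intro f
        rw [one_mul]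
        rw [ContinuousMap.norm_le _ (norm_nonneg f)]
        intro x
        exact f.norm_coe_le_norm _)

lemma pi1_eq (g : G) (f : E0) : pi1 g f = f.comp (Act g⁻¹) := rfl

/-- the representation on `C(X2, ℂ)` -/
noncomputable def pi0 : G →* (E0 →L[ℂ] E0) where
  toFun := pi1
  map_one' := by
    apply ContinuousLinearMap.ext
    intro f
    rw [pi1_eq, inv_one, Act_one]
    rfl
  map_mul' g h := by
    apply ContinuousLinearMap.ext
    intro f
    have : (g * h)⁻¹ = h⁻¹ * g⁻¹ := _root_.mul_inv_rev g h
    rw [pi1_eq, this, Act_mul]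
    rfl

lemma pi0_eq (g : G) (f : E0) : pi0 g f = f.comp (Act g⁻¹) := rfl

lemma pi0_apply (g : G) (f : E0) (x : X2) : pi0 g f x = f (Act g⁻¹ x) := rfl

lemma continuous_pi0 : Continuous fun x : G × E0 => pi0 x.1 x.2 := by
  have h1 : Continuous fun x : G × E0 => Act x.1⁻¹ :=
    continuous_Act.comp (continuous_inv.comp continuous_fst)
  exact continuous_snd.compCM h1

end Pool.Agent.N535.GC
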