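import Pool.Agent.N535.GC.Test

set_option autoImplicit false

open Complex Filter Topology
open scoped ContDiff

namespace Pool.Agent.N535.GC

/-! ### Taylor expansion -/

lemma taylor_aux (N : ℕ) : ∀ (F : ℕ → ℝ → ℂ), (∀ k t, HasDerivAt (F k) (F (k + 1) t) t) →
    ∀ (B T : ℝ), (∀ s ∈ Set.Icc (0 : ℝ) T, ‖F N s‖ ≤ B) → ∀ t ∈ Set.Icc (0 : ℝ) T,
    ‖F 0 t - ∑ k ∈ Finset.range N, ((t ^ k / k.factorial : ℝ) : ℂ) * F k 0‖ ≤
      B * t ^ N / N.factorial := by
  induction N with
  | zero =>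
    intro F hF B T hB t ht
    simpa using hB t ht
  | succ N ih =>
    intro F hF B T hB t ht
    have ih' := ih (fun k => F (k + 1)) (fun k t => hF (k + 1) t) B T hB
    set R : ℝ → ℂ := fun t => F 0 t - ∑ k ∈ Finset.range (N + 1), ((t ^ k / k.factorial : ℝ) : ℂ) * F k 0
      with hR
    have hd : ∀ t, HasDerivAt R (F 1 t - ∑ k ∈ Finset.range N,
        ((t ^ k / k.factorial : ℝ) : ℂ) * F (k + 1) 0) t := by
      intro t
      refine (hF 0 t).sub ?_
      have h1 : (fun t : ℝ => ∑ k ∈ Finset.range (N + 1), ((t ^ k / k.factorial : ℝ) : ℂ) * F k 0) =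
          fun t : ℝ => (∑ k ∈ Finset.range N,
            ((t ^ (k + 1) / (k + 1).factorial : ℝ) : ℂ) * F (k + 1) 0) + F 0 0 := by
        funext t
        rw [Finset.sum_range_succ']
        simp
      rw [h1]
      refine HasDerivAt.add_const _ ?_
      refine HasDerivAt.fun_sum fun k _ => ?_
      refine HasDerivAt.mul_const ?_ _
      have h2 : HasDerivAt (fun t : ℝ => t ^ (k + 1) / ((k + 1).factorial : ℝ))
          (t ^ k / k.factorial) t := by
        refine ((hasDerivAt_pow (k + 1) t).div_const _).congr_deriv ?_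
        rw [Nat.factorial_succ]
        push_cast
        have : ((k : ℝ) + 1) ≠ 0 := by positivity
        have h3 : (k.factorial : ℝ) ≠ 0 := by positivity
        field_simp
      exact h2.ofReal_comp
    have hb : ∀ t ∈ Set.Icc (0 : ℝ) T, ‖R t‖ ≤ B * t ^ (N + 1) / (N + 1).factorial := by
      refine image_norm_le_of_norm_deriv_right_le_deriv_boundary' (f := R)
        (f' := fun t => F 1 t - ∑ k ∈ Finset.range N, ((t ^ k / k.factorial : ℝ) : ℂ) * F (k + 1) 0)
        (B := fun t => B * t ^ (N + 1) / (N + 1).factorial) (B' := fun t => B * t ^ N / N.factorial)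
        (fun t _ => (hd t).continuousAt.continuousWithinAt) (fun t _ => (hd t).hasDerivWithinAt)
        ?_ (by fun_prop) (fun t _ => ?_) (fun t ht => ih' t ⟨ht.1, ht.2.le⟩)
      · rw [hR]
        simp only [Finset.sum_range_succ']
        simp
      · have h2 : HasDerivAt (fun t : ℝ => B * t ^ (N + 1) / ((N + 1).factorial : ℝ))
            (B * t ^ N / N.factorial) t := by
          refine (((hasDerivAt_pow (N + 1) t).const_mul B).div_const _).congr_deriv ?_
          rw [Nat.factorial_succ]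
          push_cast
          have : ((N : ℝ) + 1) ≠ 0 := by positivity
          have h3 : (N.factorial : ℝ) ≠ 0 := by positivity
          field_simp
        exact h2.hasDerivWithinAt
    exact hb t ht

/-! ### growth of the iterates -/

/-- `(a + 1) (a + 2) ... (a + k)` -/
def W : ℕ → ℕ → ℝ
  | 0, _ => 1
  | k + 1, a => (a + 1) * W k (a + 1)

lemma W_pos (k a : ℕ) : 0 < W k a := by
  induction k generalizing a with
  | zero => simp [W]
  | succ k ih => rw [W]; exact mul_pos (by positivity) (ih _)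

lemma W_mono (k : ℕ) {a b : ℕ} (h : a ≤ b) : W k a ≤ W k b := by
  induction k generalizing a b with
  | zero => simp [W]
  | succ k ih =>
    rw [W, W]
    have h1 : (a : ℝ) ≤ b := by exact_mod_cast h
    exact mul_le_mul (by linarith) (ih (by omega)) (W_pos _ _).le (by positivity)

lemma W_fac (k a : ℕ) : W k a * a.factorial = (a + k).factorial := by
  induction k generalizing a with
  | zero => simp [W]
  | succ k ih =>
    rw [W, show a + (k + 1) = (a + 1) + k by ring, ← ih (a + 1), Nat.factorial_succ]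
    push_cast
    ring

lemma W_tendsto (a : ℕ) : Tendsto (fun N : ℕ => W (N + 2) a * (1 / 2) ^ N / N.factorial) atTop (𝓝 0) := by
  have hs := (summable_choose_mul_geometric_of_norm_lt_one (R := ℝ) (a + 2)
    (r := 1 / 2) (by norm_num)).tendsto_atTop_zero
  have h2 := hs.const_mul (((a + 2).factorial : ℝ) / a.factorial)
  rw [mul_zero] at h2
  refine h2.congr fun N => ?_
  have h3 := W_fac (N + 2) a
  have h4 : ((N + (a + 2)).choose (a + 2) : ℝ) * (a + 2).factorial * N.factorial =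
      (N + (a + 2)).factorial := by
    have := Nat.choose_mul_factorial_mul_factorial (n := N + (a + 2)) (k := a + 2) (by omega)
    rw [Nat.add_sub_cancel] at this
    exact_mod_cast this
  rw [show a + (N + 2) = N + (a + 2) by ring] at h3
  have f1 : (a.factorial : ℝ) ≠ 0 := by positivity
  have f2 : (N.factorial : ℝ) ≠ 0 := by positivity
  have h5 : W (N + 2) a = ((N + (a + 2)).choose (a + 2) : ℝ) * (a + 2).factorial * N.factorial /
      a.factorial := by
    rw [eq_div_iff f1, h3, h4]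
  rw [h5]
  field_simp

/-- the generator of the diagonal group in the first factor -/
noncomputable def X0 : Mat := !![1 / 2, 0; 0, -(1 / 2)]

/-- its action -/
noncomputable def Aop : V →ₗ[ℂ] V := act X0 0

lemma Aop_e (m n : ℤ) : Aop (e m n) = ((m : ℂ) / 2) • (e (m + 1) n - e (m - 1) n) := by
  rw [Aop, act_e]
  simp only [X0, Matrix.of_apply, Matrix.cons_val', Matrix.cons_val_zero, Matrix.cons_val_one,
    Matrix.cons_val_fin_one, Matrix.zero_apply]
  simp only [Complex.ofReal_zero, add_zero, mul_zero, zero_div, zero_smul, sub_zero, smul_zero]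
  rw [smul_smul]
  congr 1
  push_cast
  ring

/-- abstract growth estimate -/
lemma growth {q : V → ℝ} (hq : IsNorm q) (n : ℤ) (K : ℝ) (hK : 0 ≤ K)
    (h0 : ∀ m : ℤ, q (e m n) ≤ K * W 2 m.natAbs) (N : ℕ) :
    ∀ m : ℤ, q ((Aop ^ N) (e m n)) ≤ K * W (N + 2) m.natAbs := by
  induction N with
  | zero => simpa using h0
  | succ N ih =>
    intro m
    rw [pow_succ, Module.End.mul_apply, Aop_e, map_smul, map_sub, hq.smul]
    have h1 : q ((Aop ^ N) (e (m + 1) n) - (Aop ^ N) (e (m - 1) n)) ≤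
        q ((Aop ^ N) (e (m + 1) n)) + q ((Aop ^ N) (e (m - 1) n)) := by
      rw [sub_eq_add_neg]
      refine (hq.add_le _ _).trans ?_
      have := hq.smul (-1) ((Aop ^ N) (e (m - 1) n))
      rw [neg_one_smul, norm_neg, norm_one, one_mul] at this
      rw [this]
    have h2 : q ((Aop ^ N) (e (m + 1) n)) ≤ K * W (N + 2) (m.natAbs + 1) :=
      (ih _).trans (mul_le_mul_of_nonneg_left (W_mono _ (by omega)) hK)
    have h3 : q ((Aop ^ N) (e (m - 1) n)) ≤ K * W (N + 2) (m.natAbs + 1) :=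
      (ih _).trans (mul_le_mul_of_nonneg_left (W_mono _ (by omega)) hK)
    have h4 : ‖((m : ℂ) / 2)‖ = (m.natAbs : ℝ) / 2 := by
      rw [norm_div, Complex.norm_intCast, Complex.norm_ofNat, Nat.cast_natAbs]
      push_cast
      rfl
    rw [h4]
    have h5 : W (N + 1 + 2) m.natAbs = (m.natAbs + 1) * W (N + 2) (m.natAbs + 1) := rfl
    rw [h5]
    have h6 := (W_pos (N + 2) (m.natAbs + 1)).le
    have h7 : (0 : ℝ) ≤ m.natAbs := by positivity
    calc (m.natAbs : ℝ) / 2 * q ((Aop ^ N) (e (m + 1) n) - (Aop ^ N) (e (m - 1) n))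
        ≤ (m.natAbs : ℝ) / 2 * (K * W (N + 2) (m.natAbs + 1) + K * W (N + 2) (m.natAbs + 1)) := by
          gcongr
          linarith
      _ = (m.natAbs : ℝ) * (K * W (N + 2) (m.natAbs + 1)) := by ring
      _ ≤ (m.natAbs + 1) * (K * W (N + 2) (m.natAbs + 1)) := by
          have := mul_nonneg hK h6
          nlinarith
      _ = _ := by ring

/-! ### the curve -/

/-- the diagonal one-parameter group -/
noncomputable def diagCurve (t : ℝ) : SL :=
  ⟨!![Real.exp (t / 2), 0; 0, Real.exp (-(t / 2))], by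
    rw [Matrix.det_fin_two_of, ← Real.exp_add]; simp⟩

/-- the curve in `G` -/
noncomputable def gam (t : ℝ) : G := (diagCurve t, 1)

lemma diagCurve_add (s t : ℝ) : diagCurve (s + t) = diagCurve s * diagCurve t := by
  apply Subtype.ext
  change (!![Real.exp ((s + t) / 2), 0; 0, Real.exp (-((s + t) / 2))] : Mat) =
    !![Real.exp (s / 2), 0; 0, Real.exp (-(s / 2))] * !![Real.exp (t / 2), 0; 0, Real.exp (-(t / 2))]
  rw [Matrix.mul_fin_two]
  simp only [mul_zero, add_zero, zero_mul, zero_add, ← Real.exp_add]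
  congr <;> ring_nf

lemma gam_add (s t : ℝ) : gam (s + t) = gam s * gam t := by
  rw [gam, gam, gam, diagCurve_add]
  exact Prod.ext rfl (by simp)

lemma gam_zero : gam 0 = 1 := by
  have : diagCurve 0 = 1 := by
    apply Subtype.ext
    change (!![Real.exp (0 / 2), 0; 0, Real.exp (-(0 / 2))] : Mat) = 1
    simp [Matrix.one_fin_two]
  rw [gam, this]; rfl

lemma curve_gam : Curve gam X0 0 where
  smooth i j := by
    constructor
    · change ContDiff ℝ ∞ fun t => (!![Real.exp (t / 2), 0; 0, Real.exp (-(t / 2))] : Mat) i j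
      fin_cases i <;> fin_cases j <;> simp <;> fun_prop
    · exact contDiff_const
  one := gam_zero
  tangent i j := by
    constructor
    · change HasDerivAt (fun t : ℝ => (!![Real.exp (t / 2), 0; 0, Real.exp (-(t / 2))] : Mat) i j)
        (X0 i j) 0
      have h1 : HasDerivAt (fun t : ℝ => Real.exp (t / 2)) (1 / 2) 0 := by
        have := ((hasDerivAt_id (0 : ℝ)).div_const 2).exp
        simpa using this
      have h2 : HasDerivAt (fun t : ℝ => Real.exp (-(t / 2))) (-(1 / 2)) 0 := by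
        have := ((hasDerivAt_id (0 : ℝ)).div_const 2).neg.exp
        simpa using this
      fin_cases i <;> fin_cases j
      · simpa [X0] using h1
      · simpa [X0] using hasDerivAt_const (0 : ℝ) (0 : ℝ)
      · simpa [X0] using hasDerivAt_const (0 : ℝ) (0 : ℝ)
      · simpa [X0] using h2
    · have h3 := hasDerivAt_const (0 : ℝ) ((1 : Mat) i j)
      exact h3

lemma continuous_gam : Continuous gam := by
  refine Continuous.prodMk ?_ continuous_const
  apply continuous_induced_rng.2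
  refine continuous_matrix fun i j => ?_
  change Continuous fun t => (!![Real.exp (t / 2), 0; 0, Real.exp (-(t / 2))] : Mat) i j
  fin_cases i <;> fin_cases j <;> simp <;> fun_prop

/-! ### the functional -/

/-- `f ↦ (D f) (1, 1)` -/
noncomputable def Lf (c : ℝ) : V →ₗ[ℂ] ℂ :=
  Finsupp.linearCombination ℂ fun p : ℤ × ℤ => ((1 : ℂ) + c * ((p.1 : ℂ) ^ 2 + (p.2 : ℂ) ^ 2))

lemma Lf_eq (c : ℝ) (v : V) : Lf c v = io (D c 2 v) 1 := by
  induction v using Finsupp.induction_linear with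
  | zero => simp
  | add v w hv hw => simp only [map_add, hv, hw]; rfl
  | single p a =>
    rw [Lf, Finsupp.linearCombination_single, D, Finsupp.linearCombination_single, map_smul,
      map_smul, io_e, ContinuousMap.smul_apply, ContinuousMap.smul_apply, chi_apply]
    rw [show (2 : ℝ) / 2 = 1 by norm_num, Real.rpow_one]
    simp only [smul_eq_mul, Prod.fst_one, Prod.snd_one, Circle.coe_one, one_zpow, mul_one]
    push_cast
    ring

lemma norm_Lf_le (c : ℝ) (v : V) : ‖Lf c v‖ ≤ supNorm (D c 2 v) := by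
  rw [Lf_eq, ← norm_io]
  exact (io (D c 2 v)).norm_coe_le_norm 1

lemma Lf_e (c : ℝ) (m n : ℤ) : Lf c (e m n) = 1 + c * ((m : ℂ) ^ 2 + (n : ℂ) ^ 2) := by
  rw [Lf, e, Finsupp.linearCombination_single, one_smul]

lemma Sf_e (m n : ℤ) : Sf (e m n) = (m : ℂ) ^ 2 := by
  rw [Sf, e, Finsupp.linearCombination_single, one_smul]

lemma Lf_Aop (c : ℝ) : (Lf c).comp Aop = (2 * c : ℂ) • Sf := by
  apply Finsupp.lhom_ext
  intro p b
  have hs : (Finsupp.single p b : V) = b • e p.1 p.2 := by
    rw [e, Finsupp.smul_single]; simp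
  rw [hs, map_smul, map_smul, LinearMap.comp_apply, Aop_e, map_smul, map_sub, Lf_e, Lf_e,
    LinearMap.smul_apply, Sf_e]
  congr 1
  simp only [smul_eq_mul]
  push_cast
  ring

lemma Sf_Aop : Sf.comp Aop = (2 : ℂ) • Sf := by
  apply Finsupp.lhom_ext
  intro p b
  have hs : (Finsupp.single p b : V) = b • e p.1 p.2 := by
    rw [e, Finsupp.smul_single]; simp
  rw [hs, map_smul, map_smul, LinearMap.comp_apply, Aop_e, map_smul, map_sub, Sf_e, Sf_e,
    LinearMap.smul_apply, Sf_e]
  congr 1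
  simp only [smul_eq_mul]
  push_cast
  ring

lemma Sf_pow (k : ℕ) (v : V) : Sf ((Aop ^ k) v) = 2 ^ k * Sf v := by
  induction k generalizing v with
  | zero => simp
  | succ k ih =>
    rw [pow_succ, Module.End.mul_apply, ih]
    have := LinearMap.congr_fun Sf_Aop v
    rw [LinearMap.comp_apply, LinearMap.smul_apply, smul_eq_mul] at this
    rw [this]
    ring

lemma Lf_pow (c : ℝ) (k : ℕ) (v : V) : Lf c ((Aop ^ (k + 1)) v) = c * 2 ^ (k + 1) * Sf v := by
  rw [pow_succ', Module.End.mul_apply]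
  have := LinearMap.congr_fun (Lf_Aop c) ((Aop ^ k) v)
  rw [LinearMap.comp_apply, LinearMap.smul_apply, smul_eq_mul, Sf_pow] at this
  rw [this]
  ring

/-- the series of the functional along the one-parameter group -/
lemma series (c : ℝ) (v : V) (t : ℝ) :
    Tendsto (fun N : ℕ => ∑ k ∈ Finset.range N, ((t ^ k / k.factorial : ℝ) : ℂ) * Lf c ((Aop ^ k) v))
      atTop (𝓝 (Lf c v + c * Sf v * (exp (2 * t) - 1))) := by
  have h1 : HasSum (fun k : ℕ => ((2 * (t : ℂ)) ^ k / k.factorial)) (exp (2 * t)) := by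
    rw [Complex.exp_eq_exp_ℂ]
    exact NormedSpace.expSeries_div_hasSum_exp (2 * (t : ℂ))
  have h2 := (h1.mul_left ((c : ℂ) * Sf v)).tendsto_sum_nat
  have h3 : Tendsto (fun N : ℕ => (∑ k ∈ Finset.range N, (c : ℂ) * Sf v * ((2 * (t : ℂ)) ^ k / k.factorial))
      + (Lf c v - c * Sf v)) atTop (𝓝 ((c : ℂ) * Sf v * exp (2 * t) + (Lf c v - c * Sf v))) :=
    h2.add_const _
  have e1 : Lf c v + c * Sf v * (exp (2 * t) - 1) =
      (c : ℂ) * Sf v * exp (2 * t) + (Lf c v - c * Sf v) := by ring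
  rw [e1]
  refine h3.congr' ?_
  filter_upwards [eventually_ge_atTop 1] with N hN
  obtain ⟨M, rfl⟩ : ∃ M, N = M + 1 := ⟨N - 1, by omega⟩
  rw [Finset.sum_range_succ', Finset.sum_range_succ']
  have e2 : ∀ k, ((t ^ (k + 1) / (k + 1).factorial : ℝ) : ℂ) * Lf c ((Aop ^ (k + 1)) v) =
      (c : ℂ) * Sf v * ((2 * (t : ℂ)) ^ (k + 1) / (k + 1).factorial) := by
    intro k
    rw [Lf_pow]
    push_cast
    ring
  simp only [e2]
  simp

section

variable {c : ℝ} {E : Type} [NormedAddCommGroup E] [NormedSpace ℂ E] [CompleteSpace E]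

/-- the functional on the completion -/
lemma exists_functional (R : Rep (fun v => supNorm (D c 2 v)) E) :
    ∃ ℓ : E →L[ℂ] ℂ, ∀ v, ℓ (R.ι v) = Lf c v := by
  have hker : ∀ v w, R.ι v = R.ι w → Lf c v = Lf c w := by
    intro v w h
    have h1 : ‖R.ι (v - w)‖ = 0 := by rw [map_sub, h, sub_self, norm_zero]
    rw [R.norm_ι] at h1
    have h2 := norm_Lf_le c (v - w)
    rw [h1] at h2
    have h3 : Lf c (v - w) = 0 := norm_le_zero_iff.1 h2
    rw [map_sub] at h3
    exact sub_eq_zero.1 h3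
  have hker2 : LinearMap.ker R.ι ≤ LinearMap.ker (Lf c) := by
    intro v hv
    rw [LinearMap.mem_ker] at hv ⊢
    rw [← map_zero (Lf c)]
    exact hker v 0 (by rw [hv, map_zero])
  -- the functional on the range
  let f : LinearMap.range R.ι →ₗ[ℂ] ℂ :=
    ((LinearMap.ker R.ι).liftQ (Lf c) hker2).comp (R.ι.quotKerEquivRange.symm).toLinearMap
  have hf : ∀ v, f ⟨R.ι v, LinearMap.mem_range_self _ v⟩ = Lf c v := by
    intro v
    change ((LinearMap.ker R.ι).liftQ (Lf c) hker2) (R.ι.quotKerEquivRange.symm _) = _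
    have : R.ι.quotKerEquivRange.symm ⟨R.ι v, LinearMap.mem_range_self _ v⟩ =
        (LinearMap.ker R.ι).mkQ v := R.ι.quotKerEquivRange_symm_apply_image v _
    rw [this]
    simp
  have hb : ∀ x, ‖f x‖ ≤ 1 * ‖x‖ := by
    rintro ⟨x, v, rfl⟩
    rw [one_mul]
    have h1 : ‖(⟨R.ι v, LinearMap.mem_range_self _ v⟩ : LinearMap.range R.ι)‖ = ‖R.ι v‖ := rfl
    have h2 := hf v
    calc ‖f ⟨R.ι v, _⟩‖ = ‖Lf c v‖ := by rw [h2]
      _ ≤ supNorm (D c 2 v) := norm_Lf_le c v
      _ = ‖R.ι v‖ := (R.norm_ι v).symm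
      _ = _ := h1.symm
  obtain ⟨g, hg, -⟩ := exists_extension_norm_eq (LinearMap.range R.ι) (f.mkContinuous 1 hb)
  refine ⟨g, fun v => ?_⟩
  have := hg ⟨R.ι v, LinearMap.mem_range_self _ v⟩
  rw [LinearMap.mkContinuous_apply, hf] at this
  exact this

/-- the identity along the one-parameter group -/
lemma along (R : Rep (fun v => supNorm (D c 2 v)) E) (hc : 0 ≤ c) (hq : IsNorm fun v => supNorm (D c 2 v))
    (ℓ : E →L[ℂ] ℂ) (hℓ : ∀ v, ℓ (R.ι v) = Lf c v) (m n : ℤ) :
    ℓ (R.π (gam (1 / 2)) (R.ι (e m n))) = Lf c (e m n) + c * Sf (e m n) * (exp 1 - 1) := by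
  -- the functions
  set F : ℕ → ℝ → ℂ := fun k t => ℓ (R.π (gam t) (R.ι ((Aop ^ k) (e m n)))) with hF
  have hder : ∀ k t, HasDerivAt (F k) (F (k + 1) t) t := by
    intro k t
    have h0 := R.deriv ((Aop ^ k) (e m n)) gam X0 0 curve_gam
    have h1 : HasDerivAt (fun s => R.π (gam (t + s)) (R.ι ((Aop ^ k) (e m n))))
        (R.π (gam t) (R.ι (act X0 0 ((Aop ^ k) (e m n))))) 0 := by
      have : (fun s => R.π (gam (t + s)) (R.ι ((Aop ^ k) (e m n)))) = fun s =>
          R.π (gam t) (R.π (gam s) (R.ι ((Aop ^ k) (e m n)))) := by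
        funext s
        rw [gam_add, map_mul]; rfl
      rw [this]
      exact ((R.π (gam t)).restrictScalars ℝ).hasFDerivAt.comp_hasDerivAt (0 : ℝ) h0
    have h2 : HasDerivAt (fun s => ℓ (R.π (gam (t + s)) (R.ι ((Aop ^ k) (e m n)))))
        (F (k + 1) t) 0 := by
      have := (ℓ.restrictScalars ℝ).hasFDerivAt.comp_hasDerivAt (0 : ℝ) h1
      rw [hF]
      simp only [pow_succ', Module.End.mul_apply]
      exact this
    have h4 : HasDerivAt (fun s => ℓ (R.π (gam (t + (-t + s))) (R.ι ((Aop ^ k) (e m n)))))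
        (F (k + 1) t) t := by
      have h5 : HasDerivAt (fun s => ℓ (R.π (gam (t + s)) (R.ι ((Aop ^ k) (e m n)))))
        (F (k + 1) t) (-t + t) := by rw [neg_add_cancel]; exact h2
      exact h5.comp_const_add (-t) t
    refine h4.congr_of_eventuallyEq ?_
    filter_upwards with s
    rw [hF]
    simp
  -- uniform boundedness
  obtain ⟨C, hC⟩ : ∃ C, ∀ s : Set.Icc (0 : ℝ) (1 / 2), ‖R.π (gam s)‖ ≤ C := by
    refine banach_steinhaus fun x => ?_
    have hcont : Continuous fun s : ℝ => R.π (gam s) x := by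
      have := R.cont.comp (continuous_gam.prodMk (continuous_const (y := x)))
      exact this
    obtain ⟨B, hB⟩ := (isCompact_Icc (a := (0 : ℝ)) (b := 1 / 2)).exists_bound_of_continuousOn
      hcont.continuousOn
    exact ⟨B, fun s => hB s s.2⟩
  have hC0 : 0 ≤ C := (norm_nonneg _).trans (hC ⟨0, by norm_num⟩)
  set K : ℝ := (1 + c) * (1 + (n : ℝ) ^ 2) with hK
  have hK0 : 0 ≤ K := by positivity
  have hbase : ∀ m : ℤ, supNorm (D c 2 (e m n)) ≤ K * W 2 m.natAbs := by
    intro m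
    rw [← norm_io]
    have h1 : D c 2 (e m n) = ((1 + c * ((m : ℝ) ^ 2 + (n : ℝ) ^ 2) : ℝ) : ℂ) • e m n := by
      conv_lhs => rw [e]
      rw [D, Finsupp.linearCombination_single, one_smul]
      rw [show (2 : ℝ) / 2 = 1 by norm_num, Real.rpow_one]
    rw [h1, map_smul, norm_smul, io_e, Complex.norm_real, Real.norm_eq_abs,
      abs_of_nonneg (by positivity)]
    have h2 : ‖chi (m, n)‖ ≤ 1 := by
      rw [ContinuousMap.norm_le _ (by norm_num)]
      intro x
      change ‖((x.1 ^ m * x.2 ^ n : Circle) : ℂ)‖ ≤ 1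
      simp
    have h3 : (m : ℝ) ^ 2 = (m.natAbs : ℝ) ^ 2 := by
      rw [Nat.cast_natAbs]; push_cast; rw [sq_abs]
    have h4 : W 2 m.natAbs = ((m.natAbs : ℝ) + 1) * ((m.natAbs : ℝ) + 2) := by
      simp only [W]; push_cast; ring
    rw [h4, h3]
    have h5 : (0 : ℝ) ≤ m.natAbs := by positivity
    set a : ℝ := (m.natAbs : ℝ)
    have h6 : 1 + c * (a ^ 2 + (n : ℝ) ^ 2) ≤ K * ((a + 1) * (a + 2)) := by
      rw [hK]
      have : (0 : ℝ) ≤ (n : ℝ) ^ 2 := sq_nonneg _
      have e1 : (a + 1) * (a + 2) ≥ 1 + a ^ 2 := by nlinarith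
      have e2 : (1 + c) * (1 + (n : ℝ) ^ 2) * (1 + a ^ 2) ≤ (1 + c) * (1 + (n : ℝ) ^ 2) * ((a + 1) * (a + 2)) :=
        mul_le_mul_of_nonneg_left e1 (by positivity)
      have e3 : 1 + c * (a ^ 2 + (n : ℝ) ^ 2) ≤ (1 + c) * (1 + (n : ℝ) ^ 2) * (1 + a ^ 2) := by
        have : 0 ≤ c * ((n : ℝ) ^ 2 * a ^ 2) := by positivity
        have : 0 ≤ (n : ℝ) ^ 2 * a ^ 2 := by positivity
        nlinarith [sq_nonneg a]
      linarith
    calc (1 + c * (a ^ 2 + (n : ℝ) ^ 2)) * ‖chi (m, n)‖
        ≤ (1 + c * (a ^ 2 + (n : ℝ) ^ 2)) * 1 := by gcongr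
      _ ≤ _ := by rw [mul_one]; exact h6
  have hgrowth := growth hq n K hK0 hbase
  -- remainder
  have hrem : ∀ N : ℕ, ‖F 0 (1 / 2) - ∑ k ∈ Finset.range N,
      (((1 / 2 : ℝ) ^ k / k.factorial : ℝ) : ℂ) * F k 0‖ ≤
      (‖ℓ‖ * C * K) * (W (N + 2) m.natAbs * (1 / 2) ^ N / N.factorial) := by
    intro N
    have := taylor_aux N F hder (‖ℓ‖ * C * K * W (N + 2) m.natAbs) (1 / 2) (by
      intro s hs
      rw [hF]
      calc ‖ℓ (R.π (gam s) (R.ι ((Aop ^ N) (e m n))))‖
          ≤ ‖ℓ‖ * ‖R.π (gam s) (R.ι ((Aop ^ N) (e m n)))‖ := ℓ.le_opNorm _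
        _ ≤ ‖ℓ‖ * (C * (K * W (N + 2) m.natAbs)) := by
          gcongr
          refine ((R.π (gam s)).le_opNorm _).trans ?_
          have h1 := hC ⟨s, hs⟩
          have h2 := hgrowth N m
          rw [← R.norm_ι] at h2
          gcongr
        _ = _ := by ring) (1 / 2) ⟨by norm_num, le_rfl⟩
    refine this.trans (le_of_eq ?_)
    ring
  have hlim : Tendsto (fun N : ℕ => ∑ k ∈ Finset.range N,
      (((1 / 2 : ℝ) ^ k / k.factorial : ℝ) : ℂ) * F k 0) atTop (𝓝 (F 0 (1 / 2))) := by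
    rw [tendsto_iff_norm_sub_tendsto_zero]
    have h0 := (W_tendsto m.natAbs).const_mul (‖ℓ‖ * C * K)
    rw [mul_zero] at h0
    refine squeeze_zero (fun N => norm_nonneg _) (fun N => ?_) h0
    rw [norm_sub_rev]
    exact hrem N
  have hF0 : ∀ k, F k 0 = Lf c ((Aop ^ k) (e m n)) := by
    intro k
    rw [hF]
    simp only [gam_zero, map_one]
    exact hℓ _
  simp only [hF0] at hlim
  have h7 := tendsto_nhds_unique hlim (series c (e m n) (1 / 2))
  have h8 : F 0 (1 / 2) = ℓ (R.π (gam (1 / 2)) (R.ι (e m n))) := by rw [hF]; simp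
  rw [← h8, h7]
  congr 3
  norm_num

lemma along' (R : Rep (fun v => supNorm (D c 2 v)) E) (hc : 0 ≤ c) (hq : IsNorm fun v => supNorm (D c 2 v))
    (ℓ : E →L[ℂ] ℂ) (hℓ : ∀ v, ℓ (R.ι v) = Lf c v) (v : V) :
    ℓ (R.π (gam (1 / 2)) (R.ι v)) = Lf c v + c * Sf v * (exp 1 - 1) := by
  induction v using Finsupp.induction_linear with
  | zero => simp
  | add v w hv hw =>
    simp only [map_add, hv, hw]
    ring
  | single p a =>
    have hs : (Finsupp.single p a : V) = a • e p.1 p.2 := by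
      rw [e, Finsupp.smul_single]; simp
    rw [hs]
    simp only [map_smul, along R hc hq ℓ hℓ, smul_eq_mul]
    ring

end

lemma isNorm_p2 {c : ℝ} (hc : 0 < c) (s : ℝ) : IsNorm fun v => supNorm (D c s v) where
  eq_zero v := by
    rw [isNorm_supNorm.eq_zero]
    constructor
    · intro h
      have h1 : ∀ p, (D c s v) p =
          (((1 + c * ((p.1 : ℝ) ^ 2 + (p.2 : ℝ) ^ 2)) ^ (s / 2) : ℝ) : ℂ) * v p := by
        intro p
        clear h
        induction v using Finsupp.induction_linear with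
        | zero => simp
        | add v w hv hw => rw [map_add, Finsupp.add_apply, hv, hw, Finsupp.add_apply]; ring
        | single q a =>
          rw [D, Finsupp.linearCombination_single, e, Finsupp.smul_single, Finsupp.smul_single]
          by_cases hqp : q = p
          · subst hqp
            simp [mul_comm]
          · rw [Finsupp.single_eq_of_ne (by simpa using Ne.symm hqp),
              Finsupp.single_eq_of_ne (Ne.symm hqp), mul_zero]
      ext p
      have h2 := h1 p
      rw [h] at h2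
      have h3 : (((1 + c * ((p.1 : ℝ) ^ 2 + (p.2 : ℝ) ^ 2)) ^ (s / 2) : ℝ) : ℂ) ≠ 0 := by
        have : 0 < (1 + c * ((p.1 : ℝ) ^ 2 + (p.2 : ℝ) ^ 2)) ^ (s / 2) := by positivity
        exact_mod_cast this.ne'
      have h4 := h2.symm
      rw [Finsupp.zero_apply, mul_eq_zero] at h4
      simpa using h4.resolve_left h3
    · rintro rfl
      simp
  add_le v w := by
    rw [map_add]; exact isNorm_supNorm.add_le _ _
  smul a v := by
    rw [map_smul]; exact isNorm_supNorm.smul _ _

/-- the second Sobolev norm of the supremum norm is not `G`-continuous -/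
theorem not_gcont {c : ℝ} (hc : 0 < c) : ¬ GContinuous fun v => supNorm (D c 2 v) := by
  rintro ⟨hq, E, i1, i2, i3, ⟨R⟩⟩
  obtain ⟨ℓ, hℓ⟩ := exists_functional R
  have key : ∀ v, ‖(c : ℂ) * Sf v * (exp 1 - 1)‖ ≤ (‖ℓ‖ * ‖R.π (gam (1 / 2))‖ + 1) *
      supNorm (D c 2 v) := by
    intro v
    have h1 := along' R hc.le hq ℓ hℓ v
    have h2 : (c : ℂ) * Sf v * (exp 1 - 1) = ℓ (R.π (gam (1 / 2)) (R.ι v)) - Lf c v := by
      rw [h1]; ring
    rw [h2]
    refine (norm_sub_le _ _).trans ?_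
    have h3 := norm_Lf_le c v
    have h4 : ‖ℓ (R.π (gam (1 / 2)) (R.ι v))‖ ≤ ‖ℓ‖ * (‖R.π (gam (1 / 2))‖ * supNorm (D c 2 v)) := by
      refine (ℓ.le_opNorm _).trans ?_
      gcongr
      refine ((R.π (gam (1 / 2))).le_opNorm _).trans ?_
      rw [R.norm_ι]
    linarith
  set B : ℝ := (‖ℓ‖ * ‖R.π (gam (1 / 2))‖ + 1) * ((1 + c) * 896) with hB
  have h1 : ∀ n : ℕ, c * n * (Real.exp 1 - 1) ≤ B := by
    intro n
    have h2 := key (tf n).coeff
    rw [Sf_tf] at h2
    have h3 := supNorm_tf c hc.le n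
    have h4 : ‖(c : ℂ) * (-(n : ℂ)) * (exp 1 - 1)‖ = c * n * (Real.exp 1 - 1) := by
      have h5 : (exp 1 - 1 : ℂ) = ((Real.exp 1 - 1 : ℝ) : ℂ) := by push_cast; rfl
      rw [h5, norm_mul, norm_mul, norm_neg, Complex.norm_real, Complex.norm_real, Complex.norm_natCast,
        Real.norm_eq_abs, Real.norm_eq_abs, abs_of_pos hc, abs_of_pos]
      have := Real.add_one_lt_exp (x := 1) (by norm_num)
      linarith
    rw [h4] at h2
    refine h2.trans ?_
    rw [hB]
    gcongr
  have h2 : 0 < c * (Real.exp 1 - 1) := by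
    have := Real.add_one_lt_exp (x := 1) (by norm_num)
    exact mul_pos hc (by linarith)
  obtain ⟨n, hn⟩ := exists_nat_gt (B / (c * (Real.exp 1 - 1)))
  rw [div_lt_iff₀ h2] at hn
  have := h1 n
  nlinarith

end Pool.Agent.N535.GC
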