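import Pool.Agent.N535.GC.Model

set_option autoImplicit false

open Complex Matrix
open scoped ContDiff

namespace Pool.Agent.N535.GC

/-- characters -/
noncomputable def chi (p : ℤ × ℤ) : E0 where
  toFun x := ((x.1 ^ p.1 * x.2 ^ p.2 : Circle) : ℂ)
  continuous_toFun := continuous_cc.comp (by fun_prop)

lemma chi_apply (p : ℤ × ℤ) (x : X2) : chi p x = (x.1 : ℂ) ^ p.1 * (x.2 : ℂ) ^ p.2 := by
  simp [chi]

lemma chi_add (p q : ℤ × ℤ) : chi (p + q) = chi p * chi q := by
  apply ContinuousMap.ext
  intro x
  rw [ContinuousMap.mul_apply, chi_apply, chi_apply, chi_apply, Prod.fst_add, Prod.snd_add,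
    zpow_add₀ (Circle.coe_ne_zero _), zpow_add₀ (Circle.coe_ne_zero _)]
  ring

lemma chi_zero : chi 0 = 1 := by
  apply ContinuousMap.ext
  intro x
  rw [chi_apply]; simp

/-- the embedding -/
noncomputable def io : V →ₗ[ℂ] E0 := Finsupp.linearCombination ℂ chi

lemma io_e (m n : ℤ) : io (e m n) = chi (m, n) := by
  simp [io, e, Finsupp.linearCombination_single]

lemma io_apply (v : V) (x : X2) : io v x = v.sum fun p a => a * chi p x := by
  rw [io, Finsupp.linearCombination_apply, Finsupp.sum, Finsupp.sum, ContinuousMap.sum_apply]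
  rfl

lemma norm_io (v : V) : ‖io v‖ = supNorm v := by
  rw [ContinuousMap.norm_eq_iSup_norm, supNorm]
  have hs : Function.Surjective fun x : ℝ × ℝ => ((Circle.exp x.1, Circle.exp x.2) : X2) := by
    intro y
    obtain ⟨a, ha⟩ := Circle.exp_surjective y.1
    obtain ⟨b, hb⟩ := Circle.exp_surjective y.2
    exact ⟨(a, b), Prod.ext ha hb⟩
  rw [← hs.iSup_comp (g := fun x => ‖io v x‖)]
  congr 1
  funext x
  congr 1
  rw [io_apply]
  congr 1
  funext p a
  congr 1
  rw [chi_apply, Circle.coe_exp, Circle.coe_exp, ← Complex.exp_int_mul, ← Complex.exp_int_mul,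
    ← Complex.exp_add]
  congr 1
  push_cast
  ring

/-- the homomorphism of characters -/
noncomputable def chiHom : Multiplicative (ℤ × ℤ) →* E0 where
  toFun p := chi p.toAdd
  map_one' := chi_zero
  map_mul' _ _ := chi_add _ _

/-- the algebra homomorphism -/
noncomputable def L : AddMonoidAlgebra ℂ (ℤ × ℤ) →ₐ[ℂ] E0 := AddMonoidAlgebra.lift ℂ E0 (ℤ × ℤ) chiHom

lemma L_single (p : ℤ × ℤ) (a : ℂ) : L (AddMonoidAlgebra.single p a) = a • chi p := by
  rw [L, AddMonoidAlgebra.lift_single]; rfl

lemma L_eq (x : AddMonoidAlgebra ℂ (ℤ × ℤ)) : L x = io x.coeff := by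
  induction x using AddMonoidAlgebra.induction_linear with
  | zero => simp
  | add x y hx hy => rw [map_add, hx, hy, AddMonoidAlgebra.coeff_add, map_add]
  | single p a =>
    rw [L_single, AddMonoidAlgebra.coeff_single, io, Finsupp.linearCombination_single]

lemma star_chi (p : ℤ × ℤ) : star (chi p) = chi (-p) := by
  apply ContinuousMap.ext
  intro x
  change (starRingEnd ℂ) (chi p x) = _
  rw [chi_apply, chi_apply, map_mul, map_zpow₀, map_zpow₀, ← Circle.coe_inv_eq_conj,
    ← Circle.coe_inv_eq_conj]
  simp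

/-- the range as a star subalgebra -/
noncomputable def Astar : StarSubalgebra ℂ E0 where
  toSubalgebra := L.range
  star_mem' := by
    rintro f ⟨x, rfl⟩
    change star (L x) ∈ L.range
    induction x using AddMonoidAlgebra.induction_linear with
    | zero => simp
    | add x y hx hy => rw [map_add, star_add]; exact add_mem hx hy
    | single p a =>
      refine ⟨AddMonoidAlgebra.single (-p) (star a), ?_⟩
      change L _ = _
      rw [L_single, L_single, star_smul, star_chi]

lemma dense_io : DenseRange io := by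
  have h := ContinuousMap.starSubalgebra_topologicalClosure_eq_top_of_separatesPoints Astar (by
    intro x y hxy
    have : x.1 ≠ y.1 ∨ x.2 ≠ y.2 := by
      by_contra hc
      push Not at hc
      exact hxy (Prod.ext hc.1 hc.2)
    rcases this with h | h
    · refine ⟨chi (1, 0), ⟨chi (1, 0), ⟨AddMonoidAlgebra.single (1, 0) 1, ?_⟩, rfl⟩, ?_⟩
      · change L _ = _
        rw [L_single, one_smul]
      · intro h2
        rw [chi_apply, chi_apply] at h2
        simp at h2
        exact h h2
    · refine ⟨chi (0, 1), ⟨chi (0, 1), ⟨AddMonoidAlgebra.single (0, 1) 1, ?_⟩, rfl⟩, ?_⟩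
      · change L _ = _
        rw [L_single, one_smul]
      · intro h2
        rw [chi_apply, chi_apply] at h2
        simp at h2
        exact h h2)
  rw [DenseRange, dense_iff_closure_eq]
  have h2 : (Set.range io) = (Astar : Set E0) := by
    ext f
    constructor
    · rintro ⟨v, rfl⟩
      refine ⟨AddMonoidAlgebra.ofCoeff v, ?_⟩
      change L _ = _
      rw [L_eq]
    · rintro ⟨x, rfl⟩
      refine ⟨x.coeff, ?_⟩
      change _ = L _
      rw [L_eq]
  rw [h2, ← StarSubalgebra.topologicalClosure_coe, h]
  rfl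

end Pool.Agent.N535.GC
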