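import Pool.Agent.N535.GC.Pos

set_option autoImplicit false

open Complex Matrix
open scoped ContDiff

namespace Pool.Agent.N535.GC

lemma al_inv (g : SL) : al (g⁻¹).1 = (starRingEnd ℂ) (al g.1) := by
  have h : ((g⁻¹ : SL).1 : Mat) = g.1.adjugate := Matrix.SpecialLinearGroup.coe_inv g
  rw [h, Matrix.adjugate_fin_two]
  simp only [al, map_div₀, map_add, map_mul, conj_ofReal, conj_I, map_ofNat]
  simp
  ring

lemma be_inv (g : SL) : be (g⁻¹).1 = - be g.1 := by
  have h : ((g⁻¹ : SL).1 : Mat) = g.1.adjugate := Matrix.SpecialLinearGroup.coe_inv g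
  rw [h, Matrix.adjugate_fin_two]
  simp only [be]
  simp
  ring

/-- numerator -/
noncomputable def Nn (p : ℤ × ℤ) (a b : ℂ) : E0 := (starRingEnd ℂ) a • chi p - b • 1

/-- denominator -/
noncomputable def Dd (p : ℤ × ℤ) (a b : ℂ) : E0 := a • 1 - (starRingEnd ℂ) b • chi p

lemma Nn_apply (p : ℤ × ℤ) (a b : ℂ) (x : X2) :
    Nn p a b x = (starRingEnd ℂ) a * chi p x - b := by
  simp [Nn]

lemma Dd_apply (p : ℤ × ℤ) (a b : ℂ) (x : X2) :
    Dd p a b x = a - (starRingEnd ℂ) b * chi p x := by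
  simp [Dd]

lemma chi10 (x : X2) : chi (1, 0) x = x.1 := by rw [chi_apply]; simp
lemma chi01 (x : X2) : chi (0, 1) x = x.2 := by rw [chi_apply]; simp

lemma coe_mob_inv (g : SL) (w : Circle) : (mob g⁻¹ w : ℂ) =
    ((starRingEnd ℂ) (al g.1) * w - be g.1) / (al g.1 - (starRingEnd ℂ) (be g.1) * w) := by
  rw [coe_mob, al_inv, be_inv]
  simp only [map_neg, starRingEnd_self_apply]
  congr 1
  ring

lemma den_inv_ne (g : SL) (w : Circle) : al g.1 - (starRingEnd ℂ) (be g.1) * w ≠ 0 := by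
  have := den_ne g⁻¹ w
  rw [al_inv, be_inv] at this
  simp only [map_neg, starRingEnd_self_apply] at this
  intro h
  apply this
  linear_combination h

lemma num_inv_ne (g : SL) (w : Circle) : (starRingEnd ℂ) (al g.1) * w - be g.1 ≠ 0 := by
  have := num_ne (g⁻¹).2 w (by simp)
  rw [al_inv, be_inv] at this
  intro h
  apply this
  linear_combination h

lemma isUnit_Nn1 (g : SL) : IsUnit (Nn (1, 0) (al g.1) (be g.1)) := by
  rw [ContinuousMap.isUnit_iff_forall_ne_zero]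
  intro x
  rw [Nn_apply, chi10]
  exact num_inv_ne g x.1

lemma isUnit_Dd1 (g : SL) : IsUnit (Dd (1, 0) (al g.1) (be g.1)) := by
  rw [ContinuousMap.isUnit_iff_forall_ne_zero]
  intro x
  rw [Dd_apply, chi10]
  exact den_inv_ne g x.1

lemma isUnit_Nn2 (g : SL) : IsUnit (Nn (0, 1) (al g.1) (be g.1)) := by
  rw [ContinuousMap.isUnit_iff_forall_ne_zero]
  intro x
  rw [Nn_apply, chi01]
  exact num_inv_ne g x.2

lemma isUnit_Dd2 (g : SL) : IsUnit (Dd (0, 1) (al g.1) (be g.1)) := by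
  rw [ContinuousMap.isUnit_iff_forall_ne_zero]
  intro x
  rw [Dd_apply, chi01]
  exact den_inv_ne g x.2

lemma inverse_apply {f : E0} (hf : IsUnit f) (x : X2) : Ring.inverse f x = (f x)⁻¹ := by
  have h := Ring.mul_inverse_cancel f hf
  have h2 := congrArg (fun F : E0 => F x) h
  simp only [ContinuousMap.mul_apply, ContinuousMap.one_apply] at h2
  exact eq_inv_of_mul_eq_one_right h2

section

variable {P : Type} [NormedAddCommGroup P] [NormedSpace ℝ P]

lemma smooth_al {A : P → Mat} (h : ∀ i j, ContDiff ℝ ∞ fun x => A x i j) :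
    ContDiff ℝ ∞ fun x => al (A x) := by
  have e : ∀ i j, ContDiff ℝ ∞ fun x => ((A x i j : ℝ) : ℂ) := fun i j =>
    Complex.ofRealCLM.contDiff.comp (h i j)
  have : (fun x => al (A x)) = fun x =>
      (((A x 0 0 : ℂ) + (A x 1 1 : ℂ)) + ((A x 1 0 : ℂ) - (A x 0 1 : ℂ)) * I) * (1 / 2) := by
    funext x
    simp only [al]
    push_cast
    ring
  rw [this]
  exact (((e 0 0).add (e 1 1)).add (((e 1 0).sub (e 0 1)).mul contDiff_const)).mul contDiff_const

lemma smooth_be {A : P → Mat} (h : ∀ i j, ContDiff ℝ ∞ fun x => A x i j) :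
    ContDiff ℝ ∞ fun x => be (A x) := by
  have e : ∀ i j, ContDiff ℝ ∞ fun x => ((A x i j : ℝ) : ℂ) := fun i j =>
    Complex.ofRealCLM.contDiff.comp (h i j)
  have : (fun x => be (A x)) = fun x =>
      (((A x 0 0 : ℂ) - (A x 1 1 : ℂ)) + ((A x 1 0 : ℂ) + (A x 0 1 : ℂ)) * I) * (1 / 2) := by
    funext x
    simp only [be]
    push_cast
    ring
  rw [this]
  exact (((e 0 0).sub (e 1 1)).add (((e 1 0).add (e 0 1)).mul contDiff_const)).mul contDiff_const

lemma smooth_Nn (p : ℤ × ℤ) {A : P → Mat} (h : ∀ i j, ContDiff ℝ ∞ fun x => A x i j) :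
    ContDiff ℝ ∞ fun x => Nn p (al (A x)) (be (A x)) :=
  ((Complex.conjCLE.contDiff.comp (smooth_al h)).smul contDiff_const).sub
    ((smooth_be h).smul contDiff_const)

lemma smooth_Dd (p : ℤ × ℤ) {A : P → Mat} (h : ∀ i j, ContDiff ℝ ∞ fun x => A x i j) :
    ContDiff ℝ ∞ fun x => Dd p (al (A x)) (be (A x)) :=
  ((smooth_al h).smul contDiff_const).sub
    ((Complex.conjCLE.contDiff.comp (smooth_be h)).smul contDiff_const)

lemma smooth_inverse {F : P → E0} (hF : ContDiff ℝ ∞ F) (hu : ∀ x, IsUnit (F x)) :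
    ContDiff ℝ ∞ fun x => Ring.inverse (F x) := by
  rw [contDiff_iff_contDiffAt]
  intro x
  obtain ⟨u, hu⟩ := hu x
  have := contDiffAt_ringInverse ℝ (n := ∞) u
  rw [hu] at this
  exact this.comp x hF.contDiffAt

/-- smooth functions for the action -/
lemma smooth_chi (m n : ℤ) (γ : P → G)
    (h : ∀ i j : Fin 2, ContDiff ℝ ∞ (fun x => (γ x).1 i j) ∧ ContDiff ℝ ∞ (fun x => (γ x).2 i j)) :
    ContDiff ℝ ∞ fun x => pi0 (γ x) (chi (m, n)) := by
  have h1 : ∀ i j, ContDiff ℝ ∞ fun x => (γ x).1.1 i j := fun i j => (h i j).1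
  have h2 : ∀ i j, ContDiff ℝ ∞ fun x => (γ x).2.1 i j := fun i j => (h i j).2
  have key : (fun x => pi0 (γ x) (chi (m, n))) = fun x =>
      (Nn (1, 0) (al (γ x).1.1) (be (γ x).1.1) ^ m.toNat *
        Ring.inverse (Dd (1, 0) (al (γ x).1.1) (be (γ x).1.1)) ^ m.toNat *
        (Ring.inverse (Nn (1, 0) (al (γ x).1.1) (be (γ x).1.1)) ^ (-m).toNat *
        (Dd (1, 0) (al (γ x).1.1) (be (γ x).1.1)) ^ (-m).toNat)) *
      (Nn (0, 1) (al (γ x).2.1) (be (γ x).2.1) ^ n.toNat *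
        Ring.inverse (Dd (0, 1) (al (γ x).2.1) (be (γ x).2.1)) ^ n.toNat *
        (Ring.inverse (Nn (0, 1) (al (γ x).2.1) (be (γ x).2.1)) ^ (-n).toNat *
        (Dd (0, 1) (al (γ x).2.1) (be (γ x).2.1)) ^ (-n).toNat)) := by
    funext x
    apply ContinuousMap.ext
    intro y
    rw [pi0_apply, chi_apply, Act_apply]
    simp only [ContinuousMap.mul_apply, ContinuousMap.pow_apply]
    rw [inverse_apply (isUnit_Dd1 _), inverse_apply (isUnit_Nn1 _), inverse_apply (isUnit_Dd2 _),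
      inverse_apply (isUnit_Nn2 _), Nn_apply, Dd_apply, Nn_apply, Dd_apply, chi10, chi01]
    have a1 : (γ x)⁻¹.1 = (γ x).1⁻¹ := rfl
    have a2 : (γ x)⁻¹.2 = (γ x).2⁻¹ := rfl
    rw [a1, a2, coe_mob_inv, coe_mob_inv]
    have aux : ∀ (k : ℤ) (z w : ℂ), z ≠ 0 → w ≠ 0 → (z / w) ^ k =
        z ^ k.toNat * w⁻¹ ^ k.toNat * (z⁻¹ ^ (-k).toNat * w ^ (-k).toNat) := by
      intro k z w hz hw
      rcases le_total 0 k with hk | hk
      · obtain ⟨j, rfl⟩ := Int.eq_ofNat_of_zero_le hk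
        simp [div_eq_mul_inv, mul_pow]
      · obtain ⟨j, hj⟩ := Int.eq_ofNat_of_zero_le (neg_nonneg.2 hk)
        obtain rfl : k = -(j : ℤ) := by omega
        simp [div_eq_mul_inv, mul_pow, mul_comm]
    rw [aux m _ _ (num_inv_ne _ _) (den_inv_ne _ _), aux n _ _ (num_inv_ne _ _) (den_inv_ne _ _)]
  rw [key]
  have s1 := smooth_Nn (1, 0) h1
  have s2 := smooth_Dd (1, 0) h1
  have s3 := smooth_Nn (0, 1) h2
  have s4 := smooth_Dd (0, 1) h2
  have s1' := smooth_inverse s1 fun x => isUnit_Nn1 _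
  have s2' := smooth_inverse s2 fun x => isUnit_Dd1 _
  have s3' := smooth_inverse s3 fun x => isUnit_Nn2 _
  have s4' := smooth_inverse s4 fun x => isUnit_Dd2 _
  exact (((s1.pow _).mul (s2'.pow _)).mul ((s1'.pow _).mul (s2.pow _))).mul
    (((s3.pow _).mul (s4'.pow _)).mul ((s3'.pow _).mul (s4.pow _)))

lemma smooth_io (v : V) (γ : P → G)
    (h : ∀ i j : Fin 2, ContDiff ℝ ∞ (fun x => (γ x).1 i j) ∧ ContDiff ℝ ∞ (fun x => (γ x).2 i j)) :
    ContDiff ℝ ∞ fun x => pi0 (γ x) (io v) := by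
  induction v using Finsupp.induction_linear with
  | zero => simpa using contDiff_const
  | add v w hv hw =>
    have : (fun x => pi0 (γ x) (io (v + w))) = fun x => pi0 (γ x) (io v) + pi0 (γ x) (io w) := by
      funext x; rw [map_add, map_add]
    rw [this]
    exact hv.add hw
  | single p a =>
    have : (fun x => pi0 (γ x) (io (Finsupp.single p a))) =
        fun x => a • pi0 (γ x) (chi (p.1, p.2)) := by
      funext x; rw [io, Finsupp.linearCombination_single, map_smul]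
    rw [this]
    exact (smooth_chi p.1 p.2 γ h).const_smul a

end

end Pool.Agent.N535.GC
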