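import Pool.Agent.N535.GC.Deriv

set_option autoImplicit false

open Complex

namespace Pool.Agent.N535.GC

/-! ### elementary inequalities -/

lemma psi_bound (u : ℝ) (hu : 0 ≤ u) :
    (10 * u + 14 * u ^ 2) * Real.exp (-(u / 2)) ≤ 896 * (4 * u / (1 + 4 * u) - u / (1 + u)) := by
  have h1 : 4 * u / (1 + 4 * u) - u / (1 + u) = 3 * u / ((1 + 4 * u) * (1 + u)) := by
    field_simp
    ring
  rw [h1]
  have h2 : 1 + (u / 2) + (u / 2) ^ 2 / 2 + (u / 2) ^ 3 / 6 ≤ Real.exp (u / 2) := by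
    have := Real.sum_le_exp_of_nonneg (x := u / 2) (by positivity) 4
    simpa [Finset.sum_range_succ, Nat.factorial] using this
  rw [Real.exp_neg, ← div_eq_mul_inv, ← mul_div_assoc, div_le_div_iff₀ (Real.exp_pos _) (by positivity)]
  have h3 : 896 * (3 * u) * (1 + (u / 2) + (u / 2) ^ 2 / 2 + (u / 2) ^ 3 / 6) ≤
      896 * (3 * u) * Real.exp (u / 2) := by gcongr
  refine le_trans ?_ h3
  nlinarith [mul_nonneg hu hu, mul_nonneg (mul_nonneg hu hu) hu, pow_nonneg hu 4]

lemma h_bound (a b : ℝ) (ha : 0 ≤ a) (ha1 : a ≤ 1) (hb : 0 ≤ b) (hb1 : b ≤ 1) (N : ℕ)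
    (hN : 1 ≤ N) :
    |2 * (a ^ (N + 1) * b ^ (N + 1) * (b - a))| +
    |2 * (a ^ N * b ^ N * (b - a) * (((N : ℝ) + 1) * ((N : ℝ) + 1 / 2) * (a + b)
      - (2 * ((N : ℝ) + 1) ^ 2 + 2 * ((N : ℝ) + 1) + 1) * (a * b)))| ≤
    (10 * (((N : ℝ) + 1) * ((1 - a) + (1 - b))) + 14 * (((N : ℝ) + 1) * ((1 - a) + (1 - b))) ^ 2) *
      Real.exp (-((((N : ℝ) + 1) * ((1 - a) + (1 - b))) / 2)) := by
  set M : ℝ := (N : ℝ) + 1 with hM
  have hM2 : 2 ≤ M := by
    have : (1 : ℝ) ≤ N := by exact_mod_cast hN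
    linarith
  set σ : ℝ := (1 - a) + (1 - b) with hσ
  have hσ0 : 0 ≤ σ := by linarith
  have hab : |b - a| ≤ σ := by
    rw [abs_le]; constructor <;> linarith
  have hexp : a ^ N * b ^ N ≤ Real.exp (-(M * σ / 2)) := by
    have h1 : a ≤ Real.exp (-(1 - a)) := by
      have := Real.add_one_le_exp (-(1 - a)); linarith
    have h2 : b ≤ Real.exp (-(1 - b)) := by
      have := Real.add_one_le_exp (-(1 - b)); linarith
    calc a ^ N * b ^ N ≤ Real.exp (-(1 - a)) ^ N * Real.exp (-(1 - b)) ^ N := by gcongr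
      _ = Real.exp (-(N * σ)) := by
        rw [← Real.exp_nat_mul, ← Real.exp_nat_mul, ← Real.exp_add]
        congr 1
        rw [hσ]; ring
      _ ≤ Real.exp (-(M * σ / 2)) := by
        apply Real.exp_le_exp.2
        have : (N : ℝ) = M - 1 := by rw [hM]; ring
        rw [this]
        nlinarith
  have hab0 : 0 ≤ a ^ N * b ^ N := by positivity
  have h1 : |2 * (a ^ (N + 1) * b ^ (N + 1) * (b - a))| ≤ 2 * (M * σ) * Real.exp (-(M * σ / 2)) := by
    rw [abs_mul, abs_mul, abs_of_nonneg (by norm_num : (0 : ℝ) ≤ 2),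
      abs_of_nonneg (by positivity : 0 ≤ a ^ (N + 1) * b ^ (N + 1))]
    have h2 : a ^ (N + 1) * b ^ (N + 1) ≤ a ^ N * b ^ N := by
      have e1 : a ^ (N + 1) * b ^ (N + 1) = (a ^ N * b ^ N) * (a * b) := by ring
      rw [e1]
      exact mul_le_of_le_one_right hab0 (by nlinarith)
    calc 2 * (a ^ (N + 1) * b ^ (N + 1) * |b - a|)
        ≤ 2 * (Real.exp (-(M * σ / 2)) * σ) := by
          gcongr
          exact h2.trans hexp
      _ ≤ 2 * (M * σ) * Real.exp (-(M * σ / 2)) := by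
        have : σ ≤ M * σ := by nlinarith
        nlinarith [Real.exp_pos (-(M * σ / 2))]
  have hbr : |M * (M - 1 / 2) * (a + b) - (2 * M ^ 2 + 2 * M + 1) * (a * b)| ≤
      4 * M + 7 * M ^ 2 * σ := by
    have hαβ : (1 - a) * (1 - b) ≤ σ / 2 := by nlinarith
    have hαβ0 : 0 ≤ (1 - a) * (1 - b) := mul_nonneg (by linarith) (by linarith)
    have e1 : M * (M - 1 / 2) * (a + b) - (2 * M ^ 2 + 2 * M + 1) * (a * b) =
        -(3 * M + 1) + σ * (M ^ 2 + 5 / 2 * M + 1) - (2 * M ^ 2 + 2 * M + 1) * ((1 - a) * (1 - b)) := by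
      rw [hσ]; ring
    rw [e1, abs_le]
    constructor
    · nlinarith [mul_nonneg hσ0 (by positivity : 0 ≤ M), mul_nonneg hσ0 (by positivity : 0 ≤ M ^ 2)]
    · nlinarith [mul_nonneg hσ0 (by positivity : 0 ≤ M), mul_nonneg hσ0 (by positivity : 0 ≤ M ^ 2)]
  have h2 : |2 * (a ^ N * b ^ N * (b - a) * (M * (M - 1 / 2) * (a + b)
      - (2 * M ^ 2 + 2 * M + 1) * (a * b)))| ≤
      (8 * (M * σ) + 14 * (M * σ) ^ 2) * Real.exp (-(M * σ / 2)) := by
    rw [abs_mul, abs_mul, abs_mul, abs_of_nonneg (by norm_num : (0 : ℝ) ≤ 2), abs_of_nonneg hab0]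
    calc 2 * (a ^ N * b ^ N * |b - a| *
          |M * (M - 1 / 2) * (a + b) - (2 * M ^ 2 + 2 * M + 1) * (a * b)|)
        ≤ 2 * (Real.exp (-(M * σ / 2)) * σ * (4 * M + 7 * M ^ 2 * σ)) := by
          gcongr
      _ = _ := by ring
  have e3 : (N : ℝ) + 1 / 2 = M - 1 / 2 := by rw [hM]; ring
  rw [e3]
  calc _ ≤ 2 * (M * σ) * Real.exp (-(M * σ / 2)) +
        (8 * (M * σ) + 14 * (M * σ) ^ 2) * Real.exp (-(M * σ / 2)) := add_le_add h1 h2
    _ = _ := by ring

/-! ### the algebra of trigonometric polynomials -/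

/-- trigonometric polynomials as an algebra -/
abbrev TA : Type := AddMonoidAlgebra ℂ (ℤ × ℤ)

/-- multiplication of the coefficients by `m` -/
noncomputable def M1 : V →ₗ[ℂ] V := Finsupp.linearCombination ℂ fun p : ℤ × ℤ => (p.1 : ℂ) • e p.1 p.2

/-- multiplication of the coefficients by `n` -/
noncomputable def M2 : V →ₗ[ℂ] V := Finsupp.linearCombination ℂ fun p : ℤ × ℤ => (p.2 : ℂ) • e p.1 p.2

/-- derivation -/
noncomputable def dx (x : TA) : TA := .ofCoeff (M1 x.coeff)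

/-- derivation -/
noncomputable def dy (x : TA) : TA := .ofCoeff (M2 x.coeff)

lemma dx_add (x y : TA) : dx (x + y) = dx x + dx y := by
  simp [dx, AddMonoidAlgebra.coeff_add, AddMonoidAlgebra.ofCoeff_add]

lemma dy_add (x y : TA) : dy (x + y) = dy x + dy y := by
  simp [dy, AddMonoidAlgebra.coeff_add, AddMonoidAlgebra.ofCoeff_add]

lemma dx_zero : dx 0 = 0 := by simp [dx]
lemma dy_zero : dy 0 = 0 := by simp [dy]

lemma dx_single (p : ℤ × ℤ) (a : ℂ) :
    dx (AddMonoidAlgebra.single p a) = AddMonoidAlgebra.single p (p.1 * a) := by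
  rw [dx, AddMonoidAlgebra.coeff_single, M1, Finsupp.linearCombination_single, e,
    Finsupp.smul_single, Finsupp.smul_single, AddMonoidAlgebra.ofCoeff_single]
  congr 1
  simp [mul_comm]

lemma dy_single (p : ℤ × ℤ) (a : ℂ) :
    dy (AddMonoidAlgebra.single p a) = AddMonoidAlgebra.single p (p.2 * a) := by
  rw [dy, AddMonoidAlgebra.coeff_single, M2, Finsupp.linearCombination_single, e,
    Finsupp.smul_single, Finsupp.smul_single, AddMonoidAlgebra.ofCoeff_single]
  congr 1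
  simp [mul_comm]

lemma dx_smul (a : ℂ) (x : TA) : dx (a • x) = a • dx x := by
  induction x using AddMonoidAlgebra.induction_linear with
  | zero => simp [dx_zero]
  | add x y hx hy => rw [smul_add, dx_add, hx, hy, dx_add, smul_add]
  | single p b =>
    rw [AddMonoidAlgebra.smul_single, dx_single, dx_single, AddMonoidAlgebra.smul_single]
    congr 1
    simp only [smul_eq_mul]; ring

lemma dy_smul (a : ℂ) (x : TA) : dy (a • x) = a • dy x := by
  induction x using AddMonoidAlgebra.induction_linear with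
  | zero => simp [dy_zero]
  | add x y hx hy => rw [smul_add, dy_add, hx, hy, dy_add, smul_add]
  | single p b =>
    rw [AddMonoidAlgebra.smul_single, dy_single, dy_single, AddMonoidAlgebra.smul_single]
    congr 1
    simp only [smul_eq_mul]; ring

lemma dx_mul (x y : TA) : dx (x * y) = dx x * y + x * dx y := by
  induction x using AddMonoidAlgebra.induction_linear with
  | zero => simp [dx_zero]
  | add x z hx hz => rw [add_mul, dx_add, hx, hz, dx_add]; ring
  | single p a =>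
    induction y using AddMonoidAlgebra.induction_linear with
    | zero => simp [dx_zero]
    | add x z hx hz => rw [mul_add, dx_add, hx, hz, dx_add]; ring
    | single q b =>
      rw [AddMonoidAlgebra.single_mul_single, dx_single, dx_single, dx_single,
        AddMonoidAlgebra.single_mul_single, AddMonoidAlgebra.single_mul_single,
        ← AddMonoidAlgebra.single_add]
      congr 1
      rw [Prod.fst_add]; push_cast; ring

lemma dy_mul (x y : TA) : dy (x * y) = dy x * y + x * dy y := by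
  induction x using AddMonoidAlgebra.induction_linear with
  | zero => simp [dy_zero]
  | add x z hx hz => rw [add_mul, dy_add, hx, hz, dy_add]; ring
  | single p a =>
    induction y using AddMonoidAlgebra.induction_linear with
    | zero => simp [dy_zero]
    | add x z hx hz => rw [mul_add, dy_add, hx, hz, dy_add]; ring
    | single q b =>
      rw [AddMonoidAlgebra.single_mul_single, dy_single, dy_single, dy_single,
        AddMonoidAlgebra.single_mul_single, AddMonoidAlgebra.single_mul_single,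
        ← AddMonoidAlgebra.single_add]
      congr 1
      rw [Prod.snd_add]; push_cast; ring

/-- `(1 + cos x) / 2` -/
noncomputable def Ax : TA := .single 0 (1 / 2) + .single (1, 0) (1 / 4) + .single (-1, 0) (1 / 4)
/-- `(1 + cos y) / 2` -/
noncomputable def Ay : TA := .single 0 (1 / 2) + .single (0, 1) (1 / 4) + .single (0, -1) (1 / 4)
/-- `i sin x / 2` -/
noncomputable def Sx : TA := .single (1, 0) (1 / 4) - .single (-1, 0) (1 / 4)
/-- `i sin y / 2` -/
noncomputable def Sy : TA := .single (0, 1) (1 / 4) - .single (0, -1) (1 / 4)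

/-- constants -/
noncomputable abbrev cst (a : ℂ) : TA := .single 0 a

lemma dx_Ax : dx Ax = Sx := by
  rw [Ax, dx_add, dx_add, dx_single, dx_single, dx_single, Sx]
  simp [sub_eq_add_neg, ← AddMonoidAlgebra.single_neg]

lemma dy_Ay : dy Ay = Sy := by
  rw [Ay, dy_add, dy_add, dy_single, dy_single, dy_single, Sy]
  simp [sub_eq_add_neg, ← AddMonoidAlgebra.single_neg]

lemma dy_Ax : dy Ax = 0 := by
  rw [Ax, dy_add, dy_add, dy_single, dy_single, dy_single]
  simp

lemma dx_Ay : dx Ay = 0 := by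
  rw [Ay, dx_add, dx_add, dx_single, dx_single, dx_single]
  simp

lemma dx_Sx : dx Sx = Ax - cst (1 / 2) := by
  have : Sx = .single (1, 0) (1 / 4) + .single (-1, 0) (-(1 / 4)) := by
    rw [Sx, AddMonoidAlgebra.single_neg, sub_eq_add_neg]
  rw [this, dx_add, dx_single, dx_single, Ax, cst]
  simp
  ring

lemma dy_Sy : dy Sy = Ay - cst (1 / 2) := by
  have : Sy = .single (0, 1) (1 / 4) + .single (0, -1) (-(1 / 4)) := by
    rw [Sy, AddMonoidAlgebra.single_neg, sub_eq_add_neg]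
  rw [this, dy_add, dy_single, dy_single, Ay, cst]
  simp
  ring

lemma sq_aux (v w : ℤ × ℤ) (h : v + w = 0) :
    ((.single v (1 / 4) - .single w (1 / 4) : TA)) * (.single v (1 / 4) - .single w (1 / 4)) =
    (.single 0 (1 / 2) + .single v (1 / 4) + .single w (1 / 4)) *
      (.single 0 (1 / 2) + .single v (1 / 4) + .single w (1 / 4)) -
      (.single 0 (1 / 2) + .single v (1 / 4) + .single w (1 / 4)) := by
  have e1 : (.single v (1 / 4) : TA) = cst (1 / 4) * .single v 1 := by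
    rw [AddMonoidAlgebra.single_mul_single]; simp
  have e2 : (.single w (1 / 4) : TA) = cst (1 / 4) * .single w 1 := by
    rw [AddMonoidAlgebra.single_mul_single]; simp
  have e3 : (.single 0 (1 / 2) : TA) = 2 * cst (1 / 4) := by
    rw [two_mul, ← AddMonoidAlgebra.single_add]; norm_num
  have h4 : 4 * cst (1 / 4) = 1 := by
    have : (4 : TA) = 2 + 2 := by norm_num
    rw [this, add_mul, ← e3, ← AddMonoidAlgebra.single_add, AddMonoidAlgebra.one_def]
    norm_num
  have hEF : (.single v 1 : TA) * .single w 1 = 1 := by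
    rw [AddMonoidAlgebra.single_mul_single, h, AddMonoidAlgebra.one_def]; simp
  rw [e1, e2, e3]
  linear_combination (-4 * (cst (1 / 4)) ^ 2) * hEF
    - cst (1 / 4) * (2 + .single v 1 + .single w 1) * h4

lemma Sx_sq : Sx * Sx = Ax * Ax - Ax := sq_aux (1, 0) (-1, 0) (by simp)

lemma Sy_sq : Sy * Sy = Ay * Ay - Ay := sq_aux (0, 1) (0, -1) (by simp)

lemma dx_pow (k : ℕ) : dx (Ax ^ (k + 1)) = (k + 1 : ℕ) • (Ax ^ k * Sx) := by
  induction k with
  | zero => simp [dx_Ax]
  | succ k ih =>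
    rw [pow_succ, dx_mul, ih, dx_Ax, pow_succ]
    simp only [nsmul_eq_mul]
    push_cast
    ring

lemma dy_pow (k : ℕ) : dy (Ay ^ (k + 1)) = (k + 1 : ℕ) • (Ay ^ k * Sy) := by
  induction k with
  | zero => simp [dy_Ay]
  | succ k ih =>
    rw [pow_succ, dy_mul, ih, dy_Ay, pow_succ]
    simp only [nsmul_eq_mul]
    push_cast
    ring

lemma dx_nsmul (k : ℕ) (x : TA) : dx (k • x) = k • dx x := by
  induction k with
  | zero => simp [dx_zero]
  | succ k ih => rw [succ_nsmul, succ_nsmul, dx_add, ih]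

lemma dy_nsmul (k : ℕ) (x : TA) : dy (k • x) = k • dy x := by
  induction k with
  | zero => simp [dy_zero]
  | succ k ih => rw [succ_nsmul, succ_nsmul, dy_add, ih]

lemma dxx_pow (k : ℕ) : dx (dx (Ax ^ (k + 1))) =
    ((k + 1) ^ 2 : ℕ) • Ax ^ (k + 1) - ((k + 1) * (k + cst (1 / 2))) * Ax ^ k := by
  rw [dx_pow, dx_nsmul, dx_mul, dx_Sx]
  cases k with
  | zero =>
    have : dx (Ax ^ 0) = 0 := by
      rw [pow_zero, AddMonoidAlgebra.one_def, dx_single]; simp
    rw [this]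
    simp
  | succ k =>
    rw [dx_pow]
    simp only [nsmul_eq_mul]
    have := Sx_sq
    push_cast
    linear_combination ((k : TA) + 1 + 1) * ((k : TA) + 1) * Ax ^ k * this

lemma dyy_pow (k : ℕ) : dy (dy (Ay ^ (k + 1))) =
    ((k + 1) ^ 2 : ℕ) • Ay ^ (k + 1) - ((k + 1) * (k + cst (1 / 2))) * Ay ^ k := by
  rw [dy_pow, dy_nsmul, dy_mul, dy_Sy]
  cases k with
  | zero =>
    have : dy (Ay ^ 0) = 0 := by
      rw [pow_zero, AddMonoidAlgebra.one_def, dy_single]; simp
    rw [this]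
    simp
  | succ k =>
    rw [dy_pow]
    simp only [nsmul_eq_mul]
    have := Sy_sq
    push_cast
    linear_combination ((k : TA) + 1 + 1) * ((k : TA) + 1) * Ay ^ k * this

lemma dx_Ay_pow (k : ℕ) : dx (Ay ^ k) = 0 := by
  induction k with
  | zero => rw [pow_zero, AddMonoidAlgebra.one_def, dx_single]; simp
  | succ k ih => rw [pow_succ, dx_mul, ih, dx_Ay]; simp

lemma dy_Ax_pow (k : ℕ) : dy (Ax ^ k) = 0 := by
  induction k with
  | zero => rw [pow_zero, AddMonoidAlgebra.one_def, dy_single]; simp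
  | succ k ih => rw [pow_succ, dy_mul, ih, dy_Ax]; simp

lemma dxx_mul (x : TA) (k : ℕ) : dx (dx (x * Ay ^ k)) = dx (dx x) * Ay ^ k := by
  rw [dx_mul, dx_Ay_pow, mul_zero, add_zero, dx_mul, dx_Ay_pow, mul_zero, add_zero]

lemma dyy_mul (x : TA) (k : ℕ) : dy (dy (Ax ^ k * x)) = Ax ^ k * dy (dy x) := by
  rw [dy_mul, dy_Ax_pow, zero_mul, zero_add, dy_mul, dy_Ax_pow, zero_mul, zero_add]

/-- `h_M` with `M = N + 1` -/
noncomputable def hM (N : ℕ) : TA :=
  Ax ^ (N + 1) * Ay ^ (N + 2) + Ax ^ (N + 1) * Ay ^ (N + 2)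
    - (Ax ^ (N + 2) * Ay ^ (N + 1) + Ax ^ (N + 2) * Ay ^ (N + 1))

lemma dx_neg (x : TA) : dx (-x) = - dx x := by
  have := dx_add x (-x)
  rw [add_neg_cancel, dx_zero] at this
  exact eq_neg_of_add_eq_zero_right this.symm

lemma dy_neg (x : TA) : dy (-x) = - dy x := by
  have := dy_add x (-x)
  rw [add_neg_cancel, dy_zero] at this
  exact eq_neg_of_add_eq_zero_right this.symm

lemma dx_sub (x y : TA) : dx (x - y) = dx x - dx y := by
  rw [sub_eq_add_neg, dx_add, dx_neg, sub_eq_add_neg]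

lemma dy_sub (x y : TA) : dy (x - y) = dy x - dy y := by
  rw [sub_eq_add_neg, dy_add, dy_neg, sub_eq_add_neg]

lemma dxx_hM (N : ℕ) : dx (dx (hM N)) =
    2 * (((N + 1) ^ 2 : ℕ) • Ax ^ (N + 1) - ((N + 1) * (N + cst (1 / 2))) * Ax ^ N) * Ay ^ (N + 2)
    - 2 * (((N + 2) ^ 2 : ℕ) • Ax ^ (N + 2) - ((N + 2) * (N + 1 + cst (1 / 2))) * Ax ^ (N + 1)) *
      Ay ^ (N + 1) := by
  rw [hM, dx_sub, dx_sub, dx_add, dx_add, dx_add, dx_add, dxx_mul, dxx_mul, dxx_pow, dxx_pow (N + 1)]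
  push_cast
  ring_nf

lemma dyy_hM (N : ℕ) : dy (dy (hM N)) =
    2 * (((N + 2) ^ 2 : ℕ) • Ay ^ (N + 2) - ((N + 2) * (N + 1 + cst (1 / 2))) * Ay ^ (N + 1)) *
      Ax ^ (N + 1)
    - 2 * (((N + 1) ^ 2 : ℕ) • Ay ^ (N + 1) - ((N + 1) * (N + cst (1 / 2))) * Ay ^ N) *
      Ax ^ (N + 2) := by
  rw [hM, dy_sub, dy_sub, dy_add, dy_add, dy_add, dy_add, dyy_mul, dyy_mul, dyy_pow (N + 1),
    dyy_pow N]
  push_cast
  ring_nf

/-! ### evaluation -/

/-- `(1 + Re w) / 2` -/
noncomputable def hc (w : Circle) : ℝ := (1 + (w : ℂ).re) / 2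

lemma hc_nonneg (w : Circle) : 0 ≤ hc w := by
  have h1 : |(w : ℂ).re| ≤ 1 := by
    have := Complex.abs_re_le_norm (w : ℂ)
    simpa using this
  have := (abs_le.1 h1).1
  unfold hc; linarith

lemma hc_le (w : Circle) : hc w ≤ 1 := by
  have h1 : |(w : ℂ).re| ≤ 1 := by
    have := Complex.abs_re_le_norm (w : ℂ)
    simpa using this
  have := (abs_le.1 h1).2
  unfold hc; linarith

lemma hc_one : hc 1 = 1 := by simp [hc]

lemma hc_eq (w : Circle) : (hc w : ℂ) = 1 / 2 + 1 / 4 * w + 1 / 4 * (w : ℂ)⁻¹ := by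
  have h1 : ((w : ℂ)⁻¹) = (starRingEnd ℂ) (w : ℂ) := by
    rw [← Circle.coe_inv_eq_conj, Circle.coe_inv]
  have h2 := Complex.add_conj (w : ℂ)
  rw [h1, hc]
  push_cast at h2 ⊢
  linear_combination -(1 / 4 : ℂ) * h2

lemma L_Ax (w : X2) : L Ax w = (hc w.1 : ℂ) := by
  rw [Ax, map_add, map_add, L_single, L_single, L_single, hc_eq]
  simp only [ContinuousMap.add_apply, ContinuousMap.smul_apply, chi_apply, smul_eq_mul]
  simp

lemma L_Ay (w : X2) : L Ay w = (hc w.2 : ℂ) := by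
  rw [Ay, map_add, map_add, L_single, L_single, L_single, hc_eq]
  simp only [ContinuousMap.add_apply, ContinuousMap.smul_apply, chi_apply, smul_eq_mul]
  simp

lemma L_cst (a : ℂ) (w : X2) : L (cst a) w = a := by
  rw [L_single]
  simp [chi_zero]

lemma L_hM (N : ℕ) (w : X2) : L (hM N) w =
    ((2 * (hc w.1 ^ (N + 1) * hc w.2 ^ (N + 1) * (hc w.2 - hc w.1)) : ℝ) : ℂ) := by
  simp only [hM, map_sub, map_add, map_mul, map_pow, ContinuousMap.sub_apply,
    ContinuousMap.add_apply, ContinuousMap.mul_apply, ContinuousMap.pow_apply, L_Ax, L_Ay]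
  push_cast
  ring

lemma L_natCast (k : ℕ) (w : X2) : L (k : TA) w = k := by
  rw [map_natCast]; rfl

lemma L_lap (N : ℕ) (w : X2) : L (dx (dx (hM N)) + dy (dy (hM N))) w =
    ((-(2 * (hc w.1 ^ N * hc w.2 ^ N * (hc w.2 - hc w.1) *
      (((N : ℝ) + 1) * ((N : ℝ) + 1 / 2) * (hc w.1 + hc w.2)
      - (2 * ((N : ℝ) + 1) ^ 2 + 2 * ((N : ℝ) + 1) + 1) * (hc w.1 * hc w.2)))) : ℝ) : ℂ) := by
  rw [dxx_hM, dyy_hM]
  have e2 : (2 : TA) = ((2 : ℕ) : TA) := by norm_num
  simp only [nsmul_eq_mul]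
  have e1 : (1 : TA) = ((1 : ℕ) : TA) := by norm_num
  rw [e2, e1]
  simp only [map_sub, map_add, map_mul, map_pow, ContinuousMap.sub_apply,
    ContinuousMap.add_apply, ContinuousMap.mul_apply, ContinuousMap.pow_apply, L_Ax, L_Ay, L_cst,
    L_natCast]
  push_cast
  ring

lemma D_two (c : ℝ) (v : V) : D c 2 v = v + (c : ℂ) • (M1 (M1 v) + M2 (M2 v)) := by
  induction v using Finsupp.induction_linear with
  | zero => simp
  | add v w hv hw =>
    simp only [map_add, hv, hw, smul_add]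
    abel
  | single p a =>
    simp only [D, M1, M2, Finsupp.linearCombination_single, e, Finsupp.smul_single, smul_eq_mul,
      mul_one, Prod.mk.eta]
    rw [← Finsupp.single_add, Finsupp.smul_single, ← Finsupp.single_add]
    congr 1
    rw [show (2 : ℝ) / 2 = 1 by norm_num, Real.rpow_one]
    push_cast
    simp only [smul_eq_mul]
    ring

lemma io_D (c : ℝ) (x : TA) (w : X2) : io (D c 2 x.coeff) w =
    L x w + c * L (dx (dx x) + dy (dy x)) w := by
  rw [D_two, map_add, map_smul, map_add, map_add, L_eq, L_eq, L_eq]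
  rfl

/-- the test functions -/
noncomputable def tf (n : ℕ) : TA := ∑ j ∈ Finset.range n, hM (4 ^ (j + 1) - 1)

lemma tf_succ (n : ℕ) : tf (n + 1) = tf n + hM (4 ^ (n + 1) - 1) := by
  rw [tf, Finset.sum_range_succ, ← tf]

lemma io_D_tf (c : ℝ) (hc0 : 0 ≤ c) (n : ℕ) (w : X2) : ‖io (D c 2 (tf n).coeff) w‖ ≤
    (1 + c) * (896 * ((4 ^ (n + 1) * ((1 - hc w.1) + (1 - hc w.2))) /
        (1 + 4 ^ (n + 1) * ((1 - hc w.1) + (1 - hc w.2)))
      - (4 * ((1 - hc w.1) + (1 - hc w.2))) / (1 + 4 * ((1 - hc w.1) + (1 - hc w.2))))) := by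
  have ha := hc_nonneg w.1
  have ha1 := hc_le w.1
  have hb := hc_nonneg w.2
  have hb1 := hc_le w.2
  set σ : ℝ := (1 - hc w.1) + (1 - hc w.2) with hσ
  have hσ0 : 0 ≤ σ := by linarith
  induction n with
  | zero =>
    have : tf 0 = 0 := by simp [tf]
    rw [this]
    simp
  | succ n ih =>
    rw [tf_succ, AddMonoidAlgebra.coeff_add, map_add, map_add, ContinuousMap.add_apply]
    have hN : 1 ≤ 4 ^ (n + 1) - 1 := by
      have : 4 ^ 1 ≤ 4 ^ (n + 1) := Nat.pow_le_pow_right (by norm_num) (by omega)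
      omega
    have hcast : (((4 ^ (n + 1) - 1 : ℕ) : ℝ) + 1) = 4 ^ (n + 1) := by
      have : 1 ≤ 4 ^ (n + 1) := Nat.one_le_pow _ _ (by norm_num)
      rw [Nat.cast_sub this]; push_cast; ring
    have hb2 := h_bound (hc w.1) (hc w.2) ha ha1 hb hb1 (4 ^ (n + 1) - 1) hN
    have hval : ‖io (D c 2 (hM (4 ^ (n + 1) - 1)).coeff) w‖ ≤ (1 + c) *
        (896 * ((4 ^ (n + 1 + 1) * σ) / (1 + 4 ^ (n + 1 + 1) * σ)
          - (4 ^ (n + 1) * σ) / (1 + 4 ^ (n + 1) * σ))) := by
      rw [io_D, L_hM, L_lap]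
      refine (norm_add_le _ _).trans ?_
      rw [norm_mul, Complex.norm_real, Complex.norm_real, Complex.norm_real, Real.norm_eq_abs,
        Real.norm_eq_abs, Real.norm_eq_abs, abs_neg, abs_of_nonneg hc0]
      have hp := psi_bound (4 ^ (n + 1) * σ) (by positivity)
      rw [hcast] at hb2 ⊢
      have e4 : 4 * (4 ^ (n + 1) * σ) = 4 ^ (n + 1 + 1) * σ := by ring
      rw [e4] at hp
      refine le_trans ?_ (mul_le_mul_of_nonneg_left (hb2.trans hp) (by linarith))
      set P := |2 * (hc w.1 ^ (4 ^ (n + 1) - 1 + 1) * hc w.2 ^ (4 ^ (n + 1) - 1 + 1) * (hc w.2 - hc w.1))|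
      have hP : 0 ≤ P := abs_nonneg _
      have : ∀ Q : ℝ, 0 ≤ Q → P + c * Q ≤ (1 + c) * (P + Q) := by
        intro Q hQ
        nlinarith [mul_nonneg hc0 hP]
      exact this _ (abs_nonneg _)
    refine (norm_add_le _ _).trans ((add_le_add ih hval).trans (le_of_eq ?_))
    ring

lemma supNorm_tf (c : ℝ) (hc0 : 0 ≤ c) (n : ℕ) : supNorm (D c 2 (tf n).coeff) ≤ (1 + c) * 896 := by
  rw [← norm_io]
  rw [ContinuousMap.norm_le _ (by positivity)]
  intro w
  refine (io_D_tf c hc0 n w).trans ?_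
  have ha := hc_nonneg w.1
  have ha1 := hc_le w.1
  have hb := hc_nonneg w.2
  have hb1 := hc_le w.2
  set σ : ℝ := (1 - hc w.1) + (1 - hc w.2) with hσ
  have hσ0 : 0 ≤ σ := by linarith
  have h1 : (4 ^ (n + 1) * σ) / (1 + 4 ^ (n + 1) * σ) ≤ 1 := by
    rw [div_le_one (by positivity)]; linarith
  have h2 : 0 ≤ (4 * σ) / (1 + 4 * σ) := by positivity
  have h3 : 0 ≤ 1 + c := by linarith
  nlinarith

/-- the sum of `m ^ 2 v (m, n)` -/
noncomputable def Sf : V →ₗ[ℂ] ℂ := Finsupp.linearCombination ℂ fun p : ℤ × ℤ => (p.1 : ℂ) ^ 2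

lemma Sf_eq (x : TA) : Sf x.coeff = L (dx (dx x)) 1 := by
  induction x using AddMonoidAlgebra.induction_linear with
  | zero => simp [dx_zero]
  | add x y hx hy =>
    rw [AddMonoidAlgebra.coeff_add, map_add, hx, hy, dx_add, dx_add, map_add]; rfl
  | single p a =>
    rw [dx_single, dx_single, L_single, AddMonoidAlgebra.coeff_single, Sf,
      Finsupp.linearCombination_single, ContinuousMap.smul_apply, chi_apply]
    simp only [smul_eq_mul, Prod.fst_one, Prod.snd_one, Circle.coe_one, one_zpow, mul_one]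
    ring

lemma Sf_hM (N : ℕ) : Sf (hM N).coeff = -1 := by
  rw [Sf_eq, dxx_hM]
  have e2 : (2 : TA) = ((2 : ℕ) : TA) := by norm_num
  simp only [nsmul_eq_mul]
  have e1 : (1 : TA) = ((1 : ℕ) : TA) := by norm_num
  rw [e2, e1]
  simp only [map_sub, map_add, map_mul, map_pow, ContinuousMap.sub_apply,
    ContinuousMap.add_apply, ContinuousMap.mul_apply, ContinuousMap.pow_apply, L_Ax, L_Ay, L_cst,
    L_natCast, Prod.fst_one, Prod.snd_one, hc_one]
  push_cast
  ring

lemma Sf_tf (n : ℕ) : Sf (tf n).coeff = -n := by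
  induction n with
  | zero =>
    have : tf 0 = 0 := by simp [tf]
    rw [this]
    simp
  | succ n ih =>
    rw [tf_succ, AddMonoidAlgebra.coeff_add, map_add, ih, Sf_hM]
    push_cast
    ring

end Pool.Agent.N535.GC
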